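import Mathlib

/-!
# MP_5766af_al, S01535: interface, part 1 (definitions)

Two levels.

* `Core`, `Data`: what the field level produces (a field `K` with compatible automorphisms
  `g l` of order dividing `2^l`, `g (l+1)^2 = g l`, a discrete valuation, a cocycle `a`).
* `Alg`: the crossed product `D = K * G` over the Pruefer group.
-/

noncomputable section

namespace Pool.Agent.Run7.h378

/-- Relative algebraic closure (inside the field `K`) of the subfield generated by `S`. -/
def acl {K : Type} [Field K] (S : Set K) : Set K :=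
  {y | IsAlgebraic (Subfield.closure S) y}

/-- Basic facts about `acl`, a pregeometry. Everything here for an arbitrary field. -/
structure AclFacts : Prop where
  sub : ∀ (K : Type) [Field K] (S : Set K), S ⊆ acl S
  mono : ∀ (K : Type) [Field K] (S T : Set K), S ⊆ T → acl S ⊆ acl T
  idem : ∀ (K : Type) [Field K] (S : Set K), acl (acl S) ⊆ acl S
  trans : ∀ (K : Type) [Field K] (S T : Set K), T ⊆ acl S → acl (S ∪ T) ⊆ acl S
  /-- `acl S` is a subfield containing `S` -/
  field : ∀ (K : Type) [Field K] (S : Set K), ∃ F : Subfield K, (F : Set K) = acl S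
  /-- exchange -/
  exch : ∀ (K : Type) [Field K] (S : Set K) (u v : K), v ∈ acl (S ∪ {u}) → v ∉ acl S →
    u ∈ acl (S ∪ {v})
  map : ∀ (K : Type) [Field K] (τ : K ≃+* K) (S : Set K) (y : K), y ∈ acl S →
    τ y ∈ acl (τ '' S)
  countable : ∀ (K : Type) [Field K] (S : Set K), S.Countable → (acl S).Countable
  /-- elements algebraic over a subfield, in terms of polynomials -/
  poly : ∀ (K : Type) [Field K] (F : Subfield K) (y : K), y ∈ acl (F : Set K) ↔
    ∃ p : Polynomial F, p ≠ 0 ∧ Polynomial.aeval y p = 0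
  /-- two variable relations, with leading coefficient not vanishing -/
  poly2 : ∀ (K : Type) [Field K] (F : Subfield K) (t y : K), y ∈ acl ((F : Set K) ∪ {t}) →
    ∃ (n : ℕ) (p : ℕ → Polynomial F), Polynomial.aeval t (p n) ≠ 0 ∧
      ∑ i ∈ Finset.range (n + 1), Polynomial.aeval t (p i) * y ^ i = 0
  poly2' : ∀ (K : Type) [Field K] (F : Subfield K) (t y : K) (n : ℕ) (p : ℕ → Polynomial F),
    Polynomial.aeval t (p n) ≠ 0 → 
      ∑ i ∈ Finset.range (n + 1), Polynomial.aeval t (p i) * y ^ i = 0 → y ∈ acl ((F : Set K) ∪ {t})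

/-- PIECE F3 (`acl` is a pregeometry). -/
def S_acl : Prop := AclFacts

/-- Common fixed field of a sequence of automorphisms. -/
def fix {K : Type} [Field K] (g : ℕ → (K ≃+* K)) : Subfield K where
  carrier := {x | ∀ l, g l x = x}
  mul_mem' := fun {a b} ha hb l => by rw [map_mul, ha l, hb l]
  one_mem' := fun l => map_one _
  add_mem' := fun {a b} ha hb l => by rw [map_add, ha l, hb l]
  zero_mem' := fun l => map_zero _
  neg_mem' := fun {a} ha l => by rw [map_neg, ha l]
  inv_mem' := fun a ha l => by rw [map_inv₀, ha l]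

/-- The part of the data needed to build the crossed product. -/
structure Core (K : Type) [Field K] [CharZero K] where
  /-- discrete valuation -/
  v : AddValuation K (WithTop ℤ)
  /-- `g l` generates the action of the cyclic group of order `2^l` -/
  g : ℕ → (K ≃+* K)
  g_zero : ∀ x, g 0 x = x
  g_sq : ∀ l x, g (l + 1) (g (l + 1) x) = g l x
  v_g : ∀ l x, v (g l x) = v x
  /-- cocycle: `u (l+1)^2 = a l * u l` -/
  a : ℕ → K
  /-- `c l = u l ^ (2^l)` -/
  c : ℕ → K
  v_a : ∀ l, v (a l) = 0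
  v_c : v (c 0) = 1
  c_succ : ∀ l, c (l + 1) = (∏ i ∈ Finset.range (2 ^ l), (g l)^[i] (a l)) * c l
  g_c : ∀ l, g l (c l) = c l

/-- The full data. `fix g` is the future centre `F`. -/
structure Data (K : Type) [Field K] [CharZero K] extends Core K where
  /-- residue characteristic not 2 -/
  v_two : v 2 = 0
  M : ℕ → Subfield K
  M_mono : Monotone M
  M_top : ∀ x, ∃ l, x ∈ M l
  g_M : ∀ l x, x ∈ M l → g l x ∈ M l
  a_mem : ∀ l, a l ∈ M (l + 1)
  c_mem : c 0 ∈ M 0
  exists_M : ∃ m ∈ M 0, m ∉ fix g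
  /-- `F` is algebraically closed in `K` -/
  acl_F : ∀ y, y ∈ acl (fix g : Set K) → y ∈ fix g
  /-- transcendence degree one over `F ∩ M l` -/
  trdeg : ∀ l t y, t ∈ M l → t ∉ fix g → y ∈ M l →
    y ∈ acl (((fix g : Set K) ∩ (M l : Set K)) ∪ {t})
  /-- freeness of `M l` and of its image under `g (l+1)` -/
  free : ∀ l t, t ∈ M l → t ∉ fix g → g (l + 1) t ∉ acl (M l : Set K)
  /-- no element of odd value has all its ratios `g l κ / κ` residually squares -/
  nsq : ∀ (κ : K) (n : ℤ), Odd n → v κ = (n : WithTop ℤ) → ∀ l₀, ∃ l, l₀ ≤ l ∧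
    ∀ s : K, v s = 0 → ¬ (v κ < v (g l κ - s ^ 2 * κ))
  /-- rigidity -/
  rig : ∀ (L : Subfield K), fix g ≤ L → ∀ l₀,
    (∀ l, l₀ ≤ l → ∃ z ∈ L, z ∈ M l ∧ g l z = z ∧ z ∉ fix g ∧ g (l + 1) z ∈ L) →
    ∀ κ, g l₀ κ = κ → κ ∈ L
  /-- merging of places -/
  mer : ∀ z, z ∉ fix g → ∃ l, IsIntegral
    (Subring.closure ((fix g : Set K) ∪ {y | ∃ i, y = (g l)^[i] z})) z⁻¹

/-- The crossed product. -/
structure Alg {K : Type} [Field K] [CharZero K] (C : Core K) (D : Type) [DivisionRing D] where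
  ι : K →+* D
  u : ℕ → D
  u_zero : u 0 = ι (C.c 0)
  u_sq : ∀ l, u (l + 1) * u (l + 1) = ι (C.a l) * u l
  u_comm : ∀ l x, u l * ι x = ι (C.g l x) * u l
  w : AddValuation D (WithTop ℚ)
  w_ι : ∀ x, w (ι x) = (C.v x).map (fun n : ℤ => (n : ℚ))
  w_u : ∀ l, w (u l) = (((1 : ℚ) / 2 ^ l : ℚ) : WithTop ℚ)
  span : ∀ d : D, ∃ (l : ℕ) (f : ℕ → K), d = ∑ i ∈ Finset.range (2 ^ l), ι (f i) * u l ^ i

namespace Alg

variable {K : Type} [Field K] [CharZero K] {D : Type} [DivisionRing D]

/-- `D_l`: the crossed product with the cyclic group of order `2^l`. -/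
def Dl {C : Core K} (A : Alg C D) (l : ℕ) : Set D :=
  {d | ∃ f : ℕ → K, d = ∑ i ∈ Finset.range (2 ^ l), A.ι (f i) * A.u l ^ i}

/-- `E_l`: same with coefficients in `M_l`. -/
def El {T : Data K} (A : Alg T.toCore D) (l : ℕ) : Set D :=
  {d | ∃ f : ℕ → K, (∀ i, f i ∈ T.M l) ∧
    d = ∑ i ∈ Finset.range (2 ^ l), A.ι (f i) * A.u l ^ i}

/-- centre `F` of `D` as a subring. -/
def Fs {C : Core K} (A : Alg C D) : Set D := A.ι '' (fix C.g : Set K)

end Alg

end Pool.Agent.Run7.h378
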