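import Pool.Agent.Run7.h378.IfaceF

/-!
PIECE F2: the twisted involution.
-/

noncomputable section

namespace Pool.Agent.Run7.h378

open Finset

variable {E : Type} [Field E] [Algebra ℂ E]

/-- the underlying function -/
def epsFun (f : E ≃ₐ[ℂ] E) (h : LaurentSeries E) : LaurentSeries E where
  coeff n := (-1 : E) ^ n * f (h.coeff n)
  isPWO_support' := h.isPWO_support.mono (by
    intro n hn h0
    apply hn
    change (-1 : E) ^ n * f (h.coeff n) = 0
    rw [h0, map_zero, mul_zero])

theorem epsFun_coeff (f : E ≃ₐ[ℂ] E) (h : LaurentSeries E) (n : ℤ) :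
    (epsFun f h).coeff n = (-1 : E) ^ n * f (h.coeff n) := rfl

theorem epsFun_support (f : E ≃ₐ[ℂ] E) (h : LaurentSeries E) :
    (epsFun f h).support = h.support := by
  ext n
  rw [HahnSeries.mem_support, HahnSeries.mem_support, epsFun_coeff]
  constructor
  · intro h1 h0; apply h1; rw [h0, map_zero, mul_zero]
  · intro h1 h0
    rcases mul_eq_zero.mp h0 with h2 | h2
    · exact (zpow_ne_zero n (neg_ne_zero.mpr one_ne_zero)) h2
    · exact h1 ((map_eq_zero_iff f f.injective).mp h2)

theorem epsFun_mul (f : E ≃ₐ[ℂ] E) (a b : LaurentSeries E) :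
    epsFun f (a * b) = epsFun f a * epsFun f b := by
  ext n
  rw [epsFun_coeff, HahnSeries.coeff_mul, HahnSeries.coeff_mul, map_sum, Finset.mul_sum]
  refine Finset.sum_congr ?_ fun ij hij => ?_
  · ext ij
    rw [Finset.mem_antidiagonal, Finset.mem_antidiagonal, epsFun_support, epsFun_support]
  · rw [Finset.mem_antidiagonal] at hij
    rw [map_mul, epsFun_coeff, epsFun_coeff, ← hij.2.2,
      zpow_add₀ (neg_ne_zero.mpr (one_ne_zero (α := E)))]
    ring

theorem p_eps : S_eps := by
  intro E _ _ R
  have hinv : ∀ h : LaurentSeries E, epsFun R.ε (epsFun R.ε h) = h := by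
    intro h
    ext n
    rw [epsFun_coeff, epsFun_coeff, map_mul, R.ε_sq, map_zpow₀, map_neg, map_one, ← mul_assoc,
      ← mul_zpow]
    simp
  refine ⟨{ toFun := epsFun R.ε, invFun := epsFun R.ε, left_inv := hinv, right_inv := hinv,
            map_mul' := epsFun_mul R.ε, map_add' := fun a b => ?_ }, fun h n => rfl⟩
  ext n
  rw [HahnSeries.coeff_add, epsFun_coeff, epsFun_coeff, epsFun_coeff, HahnSeries.coeff_add,
    map_add, mul_add]

end Pool.Agent.Run7.h378
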