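import Pool.Agent.Run7.h378.IfaceD
import Pool.Agent.H67.PI.Emb

/-!
Assembly of the crossed product level (PIECE D13).
-/

noncomputable section

namespace Pool.Agent.Run7.h378

open Finset

section

variable {K : Type} [Field K] [CharZero K] {D : Type} [DivisionRing D] {T : Data K}
  (A : Alg T.toCore D)

theorem Dl_mono (hB : Base A) {l l' : ℕ} (h : l ≤ l') : A.Dl l ⊆ A.Dl l' :=
  monotone_nat_of_le_succ (f := fun l => A.Dl l) (fun l => hB.mono l) h

theorem fix_central (hB : Base A) {f : K} (hf : f ∈ fix T.g) (d : D) :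
    A.ι f * d = d * A.ι f := by
  obtain ⟨l, hl⟩ := hB.exh d
  exact hB.cen l f (hf l) d hl

theorem mem_fix_of_large {y : K} {l₀ : ℕ} (h : ∀ l, l₀ ≤ l → T.g l y = y) : y ∈ fix T.g := by
  have h1 : ∀ k l, l + k = l₀ → T.g l y = y := by
    intro k
    induction k with
    | zero => intro l hl; exact h l (by omega)
    | succ k ih =>
      intro l hl
      have h2 := ih (l + 1) (by omega)
      rw [← T.g_sq l y, h2, h2]
  intro l
  rcases le_total l₀ l with h2 | h2
  · exact h l h2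
  · exact h1 (l₀ - l) l (by omega)

theorem center_le (hB : Base A) (hBE : BaseE A) {x : D} (hx : ∀ d, d * x = x * d) :
    ∃ f ∈ fix T.g, x = A.ι f := by
  obtain ⟨l₀, hl₀⟩ := hB.exh x
  have h1 : ∀ l, l₀ ≤ l → ∃ y, T.g l y = y ∧ x = A.ι y := fun l hl =>
    hBE.cen l x (Dl_mono A hB hl hl₀) fun e _ => hx e
  obtain ⟨y, _, hxy⟩ := h1 l₀ le_rfl
  refine ⟨y, mem_fix_of_large (l₀ := l₀) fun l hl => ?_, hxy⟩
  obtain ⟨y', hy', hxy'⟩ := h1 l hl
  have : y' = y := A.ι.injective (by rw [← hxy', hxy])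
  rw [← this]; exact hy'

theorem Fs_Dl (hB : Base A) {x : D} (hx : x ∈ A.Fs) (l : ℕ) : x ∈ A.Dl l := by
  obtain ⟨f, _, rfl⟩ := hx
  exact hB.ι_mem l f

theorem top_of (hB : Base A) (hBE : BaseE A) (hNA : NoAlg A)
    (h_dens : S_dens) (h_aw : S_aw) (h_N : S_N) (h_alg2 : S_alg2)
    (h_LF : S_LF) (h_sep : S_sep) (h_A : S_A) (h_B : S_B) (h_C : S_C) (h_F1 : S_F1)
    (h_F2 : S_F2) (S : Subring D) (hF : A.Fs ⊆ S) (hS : ∀ l, ∃ s ∈ S, s ∉ A.Dl l) : S = ⊤ := by
  have key : ∀ ω ∈ S, ω ∉ A.Fs → ∀ d : D, ∃ p ∈ Subring.closure (A.Fs ∪ {ω}), p ≠ 0 ∧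
      p * d ∈ S := by
    intro ω hω hωF d
    obtain ⟨R, hR, hRS⟩ := h_B K T D A hB hBE hNA h_LF h_alg2 S hF ω hω hωF
    have hSR : ∀ s ∈ S, s ∈ R := fun s hs =>
      (hRS s).mpr ⟨1, Subring.one_mem _, one_ne_zero, by rw [one_mul]; exact hs⟩
    have hFR : A.Fs ⊆ R := fun f hf => hSR f (hF hf)
    have hRl : ∀ l, ∃ s ∈ R, s ∉ A.Dl l := fun l => by
      obtain ⟨s, hs, hsl⟩ := hS l
      exact ⟨s, hSR s hs, hsl⟩
    obtain ⟨l₀, h1, h2⟩ := h_A K T D A hB hBE hNA h_LF h_alg2 h_sep R hFR hRl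
    have h3 := h_N K T D A hB R l₀ h1 h2
    have h4 : R = ⊤ := h_C K T D A hB hBE hNA h_dens h_aw R hR hFR ⟨l₀, h1⟩ h3
    exact (hRS d).mp (by rw [h4]; exact Subring.mem_top d)
  have hω : ∃ ω ∈ S, ω ∉ A.Fs := by
    obtain ⟨s, hs, hsl⟩ := hS 0
    exact ⟨s, hs, fun h => hsl (Fs_Dl A hB h 0)⟩
  have hz := h_F1 K T D A hB hBE hNA h_aw h_LF h_alg2 S hF hω key
  exact h_F2 K T D A hB hBE hNA S hF hz key

end

theorem final (h_alg : S_alg) (h_base : S_base) (h_baseE : S_baseE)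
    (h_dens : S_dens) (h_aw : S_aw) (h_artin : S_artin) (h_N : S_N) (h_E : S_E)
    (h_alg2 : S_alg2) (h_LF : S_LF) (h_sep : S_sep) (h_A : S_A) (h_B : S_B) (h_C : S_C)
    (h_F1 : S_F1) (h_F2 : S_F2) (h_PI : S_PI) : S_final := by
  classical
  intro K _ _ T
  obtain ⟨D, _, ⟨A⟩⟩ := h_alg K T.toCore
  have hB : Base A := h_base K T.toCore D A
  have hBE : BaseE A := h_baseE K T D A
  have hNA : NoAlg A := h_E K T D A hB hBE h_artin h_N
  let F : Subfield K := fix T.g
  let i : F →+* D := A.ι.comp F.subtype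
  let _ : Algebra F D := i.toAlgebra' fun f d => fix_central A hB f.2 d
  have halg : ∀ f : F, algebraMap F D f = A.ι f := fun f => rfl
  refine ⟨F, D, inferInstance, inferInstance, inferInstance, ?_, ?_, ?_⟩
  · intro x hx
    rw [Subalgebra.mem_center_iff] at hx
    obtain ⟨f, hf, hxf⟩ := center_le A hB hBE hx
    exact Algebra.mem_bot.mpr ⟨⟨f, hf⟩, hxf.symm⟩
  · intro hfin
    obtain ⟨m, _, hm⟩ := T.exists_M
    have h1 : IsIntegral F (A.ι m) := IsIntegral.of_finite F (A.ι m)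
    obtain ⟨p, hp, hpm⟩ := h1
    have h2 : ∑ j ∈ range (p.natDegree + 1), A.ι (p.coeff j : K) * A.ι m ^ j = 0 := by
      rw [Polynomial.eval₂_eq_sum_range] at hpm
      exact hpm
    obtain ⟨f, hf, hmf⟩ := hNA (A.ι m) p.natDegree (fun j => (p.coeff j : K))
      (fun j => (p.coeff j).2) (by
        change ((p.leadingCoeff : F) : K) ≠ 0
        rw [hp.leadingCoeff]; simp) h2
    exact hm (by rw [A.ι.injective hmf]; exact hf)
  · intro B hBtop
    by_cases hS : ∀ l, ∃ s ∈ B.toSubring, s ∉ A.Dl l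
    · exfalso
      apply hBtop
      have hF : A.Fs ⊆ B.toSubring := by
        rintro _ ⟨f, hf, rfl⟩
        exact B.algebraMap_mem ⟨f, hf⟩
      have h1 := top_of A hB hBE hNA h_dens h_aw h_N h_alg2 h_LF h_sep h_A h_B h_C h_F1 h_F2
        B.toSubring hF hS
      rw [eq_top_iff]
      intro d _
      have h2 : d ∈ B.toSubring := by rw [h1]; exact Subring.mem_top d
      exact h2
    · push Not at hS
      obtain ⟨l, hl⟩ := hS
      obtain ⟨N, hN⟩ := h_PI K T D A hB hBE l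
      let α : Equiv.Perm (Fin N) → F := fun s => ((Equiv.Perm.sign s : ℤ) : F)
      refine ⟨N, Pool.Agent.H67.PI.mlp α, Pool.Agent.H67.PI.mlp_ne_zero α ?_, fun a => ?_⟩
      · intro h
        have := congrFun h 1
        simp [α] at this
      · rw [Pool.Agent.H67.PI.mlp_lift]
        apply Subtype.ext
        rw [AddSubmonoidClass.coe_finsetSum]
        have h3 := hN (fun j => (a j : D)) fun j => hl _ (a j).2
        rw [ZeroMemClass.coe_zero, ← h3]
        refine Finset.sum_congr rfl fun s _ => ?_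
        rw [Subalgebra.coe_smul, Algebra.smul_def]
        congr 1
        · simp only [α, map_intCast]
        · have : ∀ L : List B, ((L.prod : B) : D) = (L.map B.val).prod := fun L => by
            rw [← map_list_prod]; rfl
          rw [this, List.map_ofFn]
          rfl

end Pool.Agent.Run7.h378
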