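import Pool.Agent.Run7.h378.Defs

/-!
# MP_5766af_al, S01535: interface, part 2 (the crossed product level)

Every `def S_xxx : Prop` is one piece.  Notation in the comments: `K_l` = fixed field of `g l`,
`F` = `fix g`, `G_l` = the cyclic group generated by `g l`.
-/

noncomputable section

namespace Pool.Agent.Run7.h378

open Finset

/-- PIECE D1 (construction).
Proof sketch. `N_l := ` product over `range (2^l)` of `(g l)^[i]`.  One way: for each `L` let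
`V_L` be the additive group of functions `f : ℤ → K` with `f (i + 2^L) = (c L)⁻¹ * f i`; let
`x : K` act by multiplication and `U_L` by `(U_L f) i = g L (f (i-1))`; then
`U_L ∘ x = g L x ∘ U_L` and `U_L^(2^L) = c L` (uses `g L (c L) = c L`, `(g L)^[2^L] = id`).
Put `U_{l,L} = (a l)⁻¹ * U_{l+1,L}^2` for `l < L`.  In the ring of germs at infinity of
sequences `(End V_L)_L` the elements `u l = (U_{l,L})_L` satisfy `u_sq`, `u_comm`, `u_zero`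
(because `c (l+1) = N_l(a l) * c l`).  (Or: direct limit of the cyclic algebras
`K[u_l; g_l]/(u_l^(2^l) - c l)` along `u_l ↦ (a l)⁻¹ u_{l+1}^2`, Mathlib `DirectLimit`.)
Let `D` be the subring generated by `K` and the `u l`; `D = ⋃ D_l`, `D_l = ∑_{i<2^l} K u_l^i`.
Valuation: `w (∑ x_i u_l^i) = min (v x_i + i/2^l)`; the values are pairwise different modulo `ℤ`
(note `v (c l) = 1`), so independence of the `u_l^i`, and multiplicativity by looking at the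
unique leading term; independent of `l` because `v (a l) = 0`.  So `D` is a domain, each `D_l`
is a finite dimensional left `K`-space, hence a division ring. -/
def S_alg : Prop :=
  ∀ (K : Type) [Field K] [CharZero K] (C : Core K),
    ∃ (D : Type) (_ : DivisionRing D), Nonempty (Alg C D)

/-- Basic facts about `D_l`. -/
structure Base {K : Type} [Field K] [CharZero K] {D : Type} [DivisionRing D] {C : Core K}
    (A : Alg C D) : Prop where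
  u_ne : ∀ l, A.u l ≠ 0
  u_pow : ∀ l, A.u l ^ (2 ^ l) = A.ι (C.c l)
  /-- the value of a sum is the minimum of the values of its terms -/
  sum_le : ∀ (l : ℕ) (f : ℕ → K) (i : ℕ), i < 2 ^ l →
    A.w (∑ j ∈ range (2 ^ l), A.ι (f j) * A.u l ^ j) ≤ A.w (A.ι (f i) * A.u l ^ i)
  uniq : ∀ (l : ℕ) (f : ℕ → K), (∑ j ∈ range (2 ^ l), A.ι (f j) * A.u l ^ j) = 0 →
    ∀ i, i < 2 ^ l → f i = 0
  zero_mem : ∀ l, (0 : D) ∈ A.Dl l
  one_mem : ∀ l, (1 : D) ∈ A.Dl l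
  add_mem : ∀ l x y, x ∈ A.Dl l → y ∈ A.Dl l → x + y ∈ A.Dl l
  neg_mem : ∀ l x, x ∈ A.Dl l → -x ∈ A.Dl l
  mul_mem : ∀ l x y, x ∈ A.Dl l → y ∈ A.Dl l → x * y ∈ A.Dl l
  inv_mem : ∀ l x, x ∈ A.Dl l → x⁻¹ ∈ A.Dl l
  ι_mem : ∀ l x, A.ι x ∈ A.Dl l
  u_mem : ∀ l, A.u l ∈ A.Dl l
  mono : ∀ l, A.Dl l ⊆ A.Dl (l + 1)
  exh : ∀ d, ∃ l, d ∈ A.Dl l
  split : ∀ l d, d ∈ A.Dl (l + 1) → ∃ d₀ ∈ A.Dl l, ∃ d₁ ∈ A.Dl l, d = d₀ + d₁ * A.u (l + 1)
  split_zero : ∀ l d₀ d₁, d₀ ∈ A.Dl l → d₁ ∈ A.Dl l → d₀ + d₁ * A.u (l + 1) = 0 →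
    d₀ = 0 ∧ d₁ = 0
  conj : ∀ l d, d ∈ A.Dl l → A.u (l + 1) * d * (A.u (l + 1))⁻¹ ∈ A.Dl l
  conj' : ∀ l d, d ∈ A.Dl l → (A.u (l + 1))⁻¹ * d * A.u (l + 1) ∈ A.Dl l
  /-- `K_l` is central in `D_l` -/
  cen : ∀ l x, C.g l x = x → ∀ d ∈ A.Dl l, A.ι x * d = d * A.ι x
  val : ∀ l d, d ∈ A.Dl l → d ≠ 0 → ∃ n : ℤ, A.w d = (((n : ℚ) / 2 ^ l : ℚ) : WithTop ℚ)
  val_u : ∀ l d, d ∈ A.Dl l → d ≠ 0 → ∃ n : ℤ, Odd n ∧
    A.w (d * A.u (l + 1)) = (((n : ℚ) / 2 ^ (l + 1) : ℚ) : WithTop ℚ)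

/-- PIECE D2 (elementary). `sum_le`: values of the non zero terms are pairwise different
(`v x_i + i / 2^l` are different modulo `ℤ`). `split`: `u (l+1)^2 = a l * u l`. -/
def S_base : Prop :=
  ∀ (K : Type) [Field K] [CharZero K] (C : Core K) (D : Type) [DivisionRing D] (A : Alg C D),
    Base A

/-- Basic facts about `E_l` and the centre of `D_l`. -/
structure BaseE {K : Type} [Field K] [CharZero K] {D : Type} [DivisionRing D] {T : Data K}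
    (A : Alg T.toCore D) : Prop where
  zero_mem : ∀ l, (0 : D) ∈ A.El l
  one_mem : ∀ l, (1 : D) ∈ A.El l
  add_mem : ∀ l x y, x ∈ A.El l → y ∈ A.El l → x + y ∈ A.El l
  neg_mem : ∀ l x, x ∈ A.El l → -x ∈ A.El l
  mul_mem : ∀ l x y, x ∈ A.El l → y ∈ A.El l → x * y ∈ A.El l
  inv_mem : ∀ l x, x ∈ A.El l → x⁻¹ ∈ A.El l
  ι_mem : ∀ l x, x ∈ T.M l → A.ι x ∈ A.El l
  u_mem : ∀ l, A.u l ∈ A.El l
  sub : ∀ l, A.El l ⊆ A.Dl l
  mono : ∀ l, A.El l ⊆ A.El (l + 1)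
  exh : ∀ d, ∃ l, d ∈ A.El l
  ι_mem' : ∀ l x, A.ι x ∈ A.El l → x ∈ T.M l
  /-- invariants outside `F` -/
  exists_Z : ∀ l, ∃ t ∈ T.M l, T.g l t = t ∧ t ∉ fix T.g
  /-- an element of `D_l` commuting with `E_l` lies in `K_l` -/
  cen : ∀ l d, d ∈ A.Dl l → (∀ e ∈ A.El l, e * d = d * e) → ∃ x, T.g l x = x ∧ d = A.ι x
  /-- `D_l` is spanned over `K_l` by finitely many elements of `E_l` -/
  basis : ∀ l, ∃ (N : ℕ) (e : Fin N → D), (∀ j, e j ∈ A.El l) ∧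
    (∀ d ∈ A.Dl l, ∃ x : Fin N → K, (∀ j, T.g l (x j) = x j) ∧ d = ∑ j, A.ι (x j) * e j) ∧
    (∀ d ∈ A.El l, ∃ x : Fin N → K, (∀ j, T.g l (x j) = x j ∧ x j ∈ T.M l) ∧
      d = ∑ j, A.ι (x j) * e j)

/-- PIECE D3. Let `m ∈ M 0`, `m ∉ F`.  All `(g l)^[i] m`, `i < 2^l`, are different: otherwise
a power of `g l`, hence (2-group) `g 1`, ..., fixes `m`: precisely if `(g l)^[i] m = m` with
`0 < i < 2^l` then `g 1 m = m` (take a multiple of `i` which is `2^(l-1)` mod `2^l`), against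
`free 0 m`.  Lagrange interpolation at the `2^l` points `(g l)^[i] m` (its coefficients are
`g l`-invariant by uniqueness) gives: every `x ∈ K` (resp. `M l`) is
`∑_{i<2^l} x_i m^i` with `g l x_i = x_i` (resp. and `x_i ∈ M l`).  So the `m^i u_l^j` are a basis
of `D_l` over `K_l` (resp. of `E_l` over `K_l ∩ M_l`). `E_l` is a ring because `c l ∈ M l`,
increasing since `a l ∈ M (l+1)`; it is a domain finite dimensional over the field `M_l`, so a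
division ring. `cen`: commute with `ι m` and with `u l`. `exists_Z`: some coefficient of
`∏_{i<2^l} (X - (g l)^[i] m)` is not in `F`, else `m` would be algebraic over `F` (`acl_F`). -/
def S_baseE : Prop :=
  ∀ (K : Type) [Field K] [CharZero K] (T : Data K) (D : Type) [DivisionRing D]
    (A : Alg T.toCore D), BaseE A

/-- PIECE D4a (density lemma). Choose `c ≠ 0` of minimal support with the property, normalise one
coordinate to `1`, and look at `c_j s' - s' c_j` for `s' ∈ S`. -/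
def S_dens : Prop :=
  ∀ (D : Type) [DivisionRing D] (S : Set D), (1 : D) ∈ S → (∀ a ∈ S, ∀ b ∈ S, a * b ∈ S) →
    ∀ (m : ℕ) (d c : Fin m → D), c ≠ 0 → (∀ s ∈ S, ∑ j, c j * s * d j = 0) →
      ∃ c' : Fin m → D, c' ≠ 0 ∧ (∀ j, ∀ s ∈ S, s * c' j = c' j * s) ∧ ∑ j, c' j * d j = 0

/-- PIECE D4b (Artin-Whaples, relative form). `R` a division subring, `e j ∈ R` linearly
independent over the centre of `R`. Then `R`-`R`-operators send `e` to any vector.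
Proof: else the (right) subspace of values is annihilated by a non zero row `c ∈ R^m`, and D4a
(for the division ring `R`, `S = R`) gives a relation with central coefficients. -/
def S_aw : Prop :=
  ∀ (D : Type) [DivisionRing D] (R : Subring D), (∀ x ∈ R, x⁻¹ ∈ R) →
    ∀ (m : ℕ) (e : Fin m → D), (∀ j, e j ∈ R) →
    (∀ c : Fin m → D, (∀ j, c j ∈ R) → (∀ j, ∀ s ∈ R, s * c j = c j * s) →
      ∑ j, c j * e j = 0 → c = 0) →
    ∀ t : Fin m → D, (∀ j, t j ∈ R) →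
      ∃ (n : ℕ) (s r : Fin n → D), (∀ i, s i ∈ R) ∧ (∀ i, r i ∈ R) ∧
        ∀ j, ∑ i, s i * e j * r i = t j

/-- PIECE D4c (Artin's lemma, relative form, mirror image of D4a). -/
def S_artin : Prop :=
  ∀ (D : Type) [DivisionRing D] (R : Subring D), (∀ x ∈ R, x⁻¹ ∈ R) →
    ∀ (m : ℕ) (e : Fin m → D), (∀ j, e j ∈ R) →
    (∀ c : Fin m → D, (∀ j, c j ∈ R) → (∀ j, ∀ s ∈ R, s * c j = c j * s) →
      ∑ j, c j * e j = 0 → c = 0) →
    ∀ c : Fin m → D, (∀ j, c j ∈ R) → (∀ y ∈ R, ∑ j, e j * y * c j = 0) → c = 0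

/-- PIECE D5 (Lemma N), from Base. `N_l` := elements of `D_l` commuting with `S ∩ D_l`
(a division ring containing `K_l`).
(1) By `h2` `N_{l+1} ⊆ N_l` for `l ≥ l₀`. If `N_l = K_l` then `N_{l+1} = K_{l+1}`: an `x ∈ K_l`
commuting with `b = e u_{l+1}` has `g (l+1) x = x`.  So assume `N_l ≠ K_l` for all `l ≥ l₀`
(replace `l₀` by `l₀+1`, so that every `S ∩ D_l`, `l ≥ l₀`, has an element `y ≠ 0` with
`w y = odd / 2^l`: `val_u`).
(2) Let `0 ≠ x ∈ N_l`, `w x ∈ ℤ`. Write `x = x₁ + x'`, `x₁ = ι κ` the coefficient of `u_l^0`;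
`w x' > w x = v κ` (the other terms have non integral values).  `y = y₁ + y'`,
`y₁ = ι λ u_l^j` the leading term, `j` odd.  `x y = y x` gives
`w (x₁ y₁ - y₁ x₁) > w x + w y`, i.e. `v (κ - h κ) > v κ`, `h = (g l)^[j]`; since `j` is odd the
same for `g l` and for all its powers.
(3) Suppose all values of `N_l` are integers. For `d = ∑ ι (f i) u_l^i` put
`Trd d = ∑_{i<2^l} (g l)^[i] (f 0)`. If `x ∈ N_l`, `x ∉ K_l` then
`x' = x - ι (Trd x / 2^l) ∈ N_l` is not `0` and `Trd x' = 0`; but by (2)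
`v (Trd x') = v (2^l * f 0) = v (f 0) < ⊤`.  Contradiction.
(4) So for every `l ≥ l₀` there is `x_l ∈ N_l` with `w x_l ∈ 1/2 + ℤ` (a `2^r`-th power of an
element of non integral value). Let `x = x_{l₀}` with leading term `X = ι λ u_{l₀}^(2^(l₀-1))`,
`X^2 = ι κ`, `v κ = 2 w x` odd. For `l ≥ l₀`, `z = x_l x⁻¹ ∈ N_{l₀}` has integral value, leading
term `ι ρ` with `v (ρ - h ρ) > v ρ` for all powers `h` of `g l₀`, so
`x_l^2 = z x z x` has leading term `ρ^2 κ` up to higher value (`X ι ρ = ι (h ρ) X`), and by (2)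
for `x_l^2 ∈ N_l`: `v (ρ^2 κ - g l (ρ^2 κ)) > v (ρ^2 κ)`.  With `s = ρ / g l ρ`, `v s = 0`,
`v (g l κ - s^2 κ) > v κ` for all `l ≥ l₀`: contradiction to `T.nsq κ`. -/
def S_N : Prop :=
  ∀ (K : Type) [Field K] [CharZero K] (T : Data K) (D : Type) [DivisionRing D]
    (A : Alg T.toCore D), Base A → ∀ (S : Subring D) (l₀ : ℕ),
    (∀ l, l₀ ≤ l → ∃ b ∈ S, b ≠ 0 ∧ ∃ e ∈ A.Dl l, b = e * A.u (l + 1)) →
    (∀ l, l₀ ≤ l → ∀ x ∈ A.Dl (l + 1), (∀ s ∈ S, s ∈ A.Dl (l + 1) → s * x = x * s) →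
      x ∈ A.Dl l) →
    ∃ l₁, ∀ l, l₁ ≤ l → ∀ x ∈ A.Dl l, (∀ s ∈ S, s ∈ A.Dl l → s * x = x * s) →
      ∃ y, T.g l y = y ∧ x = A.ι y

/-- PIECE D6 (no algebraic elements). Apply `S_N` to `S` = centraliser of `θ`.
Let `θ ∈ D_l`, `l ≥ l₀`. `h2`: take `t ∈ M l`, `g l t = t`, `t ∉ F` (`BaseE.exists_Z`);
`ι t` is central in `D_l`, so in `S`, and
`x = d₀ + d₁ u_{l+1}` commutes with `ι t` only if `d₁ = 0`, as `g (l+1) t ≠ t` (`free`).
`h1`: the minimal polynomial `p` of `θ` over `K_l` divides the given polynomial over `F`, so its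
coefficients are algebraic over `F`, so lie in `F`. Put `τ d = u d u⁻¹`, `u = u (l+1)`. Then
`p (τ θ) = 0`. For `y ∈ D_l` let `e y = ∑_k p_k ∑_{i+j=k-1} θ^i y (τ θ)^j`; `θ (e y) = (e y) (τ θ)`,
so `b = (e y) u` commutes with `θ`. By `S_artin` for `R = D_l` (the `θ^i`, `i < deg p`, are
independent over the centre `K_l`) some `e y ≠ 0`.
So `S_N`: `θ ∈ K_l`, `θ = ι x`, `x` algebraic over `F`, so `x ∈ F` by `acl_F`. -/
def S_E : Prop :=
  ∀ (K : Type) [Field K] [CharZero K] (T : Data K) (D : Type) [DivisionRing D]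
    (A : Alg T.toCore D), Base A → BaseE A → S_artin → S_N →
    ∀ (θ : D) (n : ℕ) (c : ℕ → K), (∀ i, c i ∈ fix T.g) → c n ≠ 0 →
      ∑ i ∈ range (n + 1), A.ι (c i) * θ ^ i = 0 → ∃ f ∈ fix T.g, θ = A.ι f

/-- Hypothesis 'no element outside `F` is algebraic over `F`'. -/
def NoAlg {K : Type} [Field K] [CharZero K] {D : Type} [DivisionRing D] {T : Data K}
    (A : Alg T.toCore D) : Prop :=
  ∀ (θ : D) (n : ℕ) (c : ℕ → K), (∀ i, c i ∈ fix T.g) → c n ≠ 0 →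
      ∑ i ∈ range (n + 1), A.ι (c i) * θ ^ i = 0 → ∃ f ∈ fix T.g, θ = A.ι f

/-- PIECE D7a (algebraicity). For `ω ∈ E_l ∖ F` and `x ∈ M_l` with `g l x = x`: `ι x` is algebraic
over `F_l(ω)`, `F_l = F ∩ M_l`, written as: some non zero two variable polynomial over `F_l` kills
`(ω, ι x)`, and its leading coefficient in the second variable does not vanish at `ω`.
Proof: some coefficient `t` of a polynomial equation of `ω` over `Z_l = {x ∈ M_l, g l x = x}`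
(`BaseE.basis` : `E_l` is finite dimensional over `Z_l`) is not in `F`
(else `NoAlg`); `ω` is algebraic over `F_l(t)` since `Z_l` is (`trdeg`); `ω` is
transcendental over `F_l`; so `t` is algebraic over `F_l(ω)` (exchange in the field `Z_l(ω)`);
and `x` is algebraic over `F_l(t)`. -/
def S_alg2 : Prop :=
  AclFacts → ∀ (K : Type) [Field K] [CharZero K] (T : Data K) (D : Type) [DivisionRing D]
    (A : Alg T.toCore D), Base A → BaseE A → NoAlg A →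
    ∀ (l : ℕ) (ω : D), ω ∈ A.El l → ω ∉ A.Fs → ∀ x ∈ T.M l, T.g l x = x →
      ∃ (n : ℕ) (p : ℕ → D),
        (∀ i, p i ∈ Subring.closure ((A.ι '' ((fix T.g : Set K) ∩ (T.M l : Set K))) ∪ {ω})) ∧
        p n ≠ 0 ∧ ∑ i ∈ range (n + 1), p i * A.ι x ^ i = 0

/-- PIECE D7b (left local finiteness), level `l` version. For `ω ∈ E_l ∖ F`, `d, e ∈ E_l`,
`e ≠ 0`: a relation `∑ p_i d e^i = 0`, `p_i ∈ F_l[ω]`, `p_0 ≠ 0`.
Proof: `e^m = ∑_{j<m} ζ_j e^j` with `ζ_j ∈ Z_l`, each `ζ_j` algebraic over `F_l(ω)` (D7a) and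
commuting with `ω`, so all `d e^i` lie in the finite dimensional left `F_l(ω)`-space
`∑_j F_l(ω)[ζ] d e^j`; hence a relation; clear denominators, divide by a power of `e` from the
right. -/
def S_LF : Prop :=
  ∀ (K : Type) [Field K] [CharZero K] (T : Data K) (D : Type) [DivisionRing D]
    (A : Alg T.toCore D), Base A → BaseE A → NoAlg A → S_alg2 →
    ∀ (l : ℕ) (ω d e : D), ω ∈ A.El l → ω ∉ A.Fs → d ∈ A.El l → e ∈ A.El l → e ≠ 0 →
      ∃ (n : ℕ) (p : ℕ → D),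
        (∀ i, p i ∈ Subring.closure ((A.ι '' ((fix T.g : Set K) ∩ (T.M l : Set K))) ∪ {ω})) ∧
        p 0 ≠ 0 ∧ ∑ i ∈ range (n + 1), p i * d * e ^ i = 0

/-- PIECE D8a (separation). `ω ∈ E_l ∖ F`; no non zero polynomial over `F_l = F ∩ M_l` in left and
right multiplication by `ω` kills a non zero element of `D_l u_{l+1}`.
Proof: `u = u (l+1)`, `τ d = u d u⁻¹`, `ω' = d (τ ω) d⁻¹ ∈ D_l`. The sum is
`(∑ p_ij ω^i ω'^j) d u`. Suppose it is `0`. Let `Λ = Z_l(ω)` (a field, finite over `Z_l`),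
`V = ∑_j Λ ω'^j`: finite dimensional left `Λ`-space (the top coefficient `∑_i p_in ω^i ≠ 0` by
`NoAlg`) and `V ω' ⊆ V`. Let `t ∈ Z_l ∖ F`; `∑ q_i(ω) (ι t)^i = 0` (D7a), apply `τ` and conjugate
by `d`: `∑ q_i(ω') T^i = 0`, `T = ι (g (l+1) t)` central in `D_l`, `q_n(ω') ≠ 0`. As
`V q_n(ω') = V`, `V T^n ⊆ ∑_{i<n} V T^i`, so `T` is algebraic over `Λ`, so over `Z_l ⊆ M_l`:
contradiction to `free`. -/
def S_sep : Prop :=
  ∀ (K : Type) [Field K] [CharZero K] (T : Data K) (D : Type) [DivisionRing D]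
    (A : Alg T.toCore D), Base A → BaseE A → NoAlg A → S_alg2 →
    ∀ (l : ℕ) (ω d : D), ω ∈ A.El l → ω ∉ A.Fs → d ∈ A.Dl l → d ≠ 0 →
    ∀ (n : ℕ) (p : ℕ → ℕ → K), (∀ i j, p i j ∈ fix T.g ∧ p i j ∈ T.M l) →
      (∃ i j, i < n ∧ j < n ∧ p i j ≠ 0) →
      ∑ i ∈ range n, ∑ j ∈ range n, A.ι (p i j) * (ω ^ i * (d * A.u (l + 1)) * ω ^ j) ≠ 0

/-- PIECE D8b (homogeneous elements). `S` an `F`-subring not contained in any `D_l`.
Proof. Choose `ω ∈ S ∖ F`, `l₀` with `ω ∈ E_{l₀}`. (i) If `l ≥ l₀` and `S ∩ D_{l+1} ⊄ D_l`, take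
`a = d₀ + d₁ u_{l+1} ∈ S`, `d₁ ≠ 0`; write `d₀ = ∑ κ_i e_i` (`BaseE.basis`), `D7b` gives
`P_i ≠ 0` over `F_l` with `P_i(L_ω, R_ω) e_i = 0`; the product `P` kills `d₀` (`κ_i` central in
`D_l`), and `P(L_ω,R_ω) a = P(L_ω,R_ω)(d₁ u_{l+1}) ≠ 0` by D8a: an element of `S ∩ D_l u_{l+1}`.
(ii) such `l` are cofinal; if `b ∈ S ∩ D_l u_{l+1}`, `b ≠ 0` then `w (b^2) = odd / 2^l` so
`b^2 ∈ D_l ∖ D_{l-1}`: so all `l ≥ l₀` are good. (iii) the second conclusion is D8a with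
`P = X - Y`. -/
def S_A : Prop :=
  ∀ (K : Type) [Field K] [CharZero K] (T : Data K) (D : Type) [DivisionRing D]
    (A : Alg T.toCore D), Base A → BaseE A → NoAlg A → S_LF → S_alg2 → S_sep →
    ∀ (S : Subring D), A.Fs ⊆ S → (∀ l, ∃ s ∈ S, s ∉ A.Dl l) →
    ∃ l₀, (∀ l, l₀ ≤ l → ∃ b ∈ S, b ≠ 0 ∧ ∃ e ∈ A.Dl l, b = e * A.u (l + 1)) ∧
    (∀ l, l₀ ≤ l → ∀ x ∈ A.Dl (l + 1), (∀ s ∈ S, s ∈ A.Dl (l + 1) → s * x = x * s) →
      x ∈ A.Dl l)

/-- PIECE D9 (localisation). `F(ω) S` is a division ring. Proof: D7b for `d, e ∈ S` (at a level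
containing everything) gives, for `a ∈ S`, `q ∈ F[ω]` not zero, `∑ p_i a q^i = 0`, `p_0 ≠ 0`, so
`p_0 a q⁻¹ ∈ S`; and `∑ p_i a^i = 0`, so `p_0 a⁻¹ ∈ S`. -/
def S_B : Prop :=
  ∀ (K : Type) [Field K] [CharZero K] (T : Data K) (D : Type) [DivisionRing D]
    (A : Alg T.toCore D), Base A → BaseE A → NoAlg A → S_LF → S_alg2 →
    ∀ (S : Subring D), A.Fs ⊆ S → ∀ ω ∈ S, ω ∉ A.Fs →
      ∃ R : Subring D, (∀ x ∈ R, x⁻¹ ∈ R) ∧
        ∀ d, d ∈ R ↔ ∃ p ∈ Subring.closure (A.Fs ∪ {ω}), p ≠ 0 ∧ p * d ∈ S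

/-- PIECE D10 (division subrings). Proof. By `S_A`, `S_N` there is `l₁` such that for `l ≥ l₁`
elements of `D_l` commuting with `R_l = R ∩ D_l` lie in `K_l`.
(1) Let `ω ∈ R ∖ F`, `ω ∈ E_l`, `l ≥ l₁`, `p` its minimal polynomial over `K_l`, degree `n`. If
`1, ω, ..., ω^n` were independent over the centre of `R_l`, `S_aw` would give
`s_i, t_i ∈ R_l` with `∑ s_i ω^j t_i = δ_{jn}` (`j ≤ n`), contradiction when applied to
`p(ω) = 0` (`K_l` is central in `D_l`). So there is a monic polynomial of degree `≤ n` over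
`centre R_l ⊆ K_l` killing `ω`, it equals `p`: the coefficients of `p` lie in `R`. Same with
`E_l` (centre in `K_l ∩ M_l`, `BaseE.cen`): they lie in `M_l`. By `NoAlg` one of them, `ι z`,
has `z ∉ F`: `z ∈ M_l`, `g l z = z`, `ι z ∈ R`.
(2) `b = e u_{l+1} ∈ R`: `b (ι z) b⁻¹ = ι (g (l+1) z) ∈ R`.
(3) `T.rig` for `L = {x | ι x ∈ R}`: `K_l ⊆ R` for all large `l`.
(4) `R_l = D_l`: else `dim_{K_l} R_l = n < m = dim_{K_l} D_l`; with `d_1..d_m` a `K_l`-basis of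
`D_l` and `s_1..s_n` one of `R_l` solve `∑_j c_j s_i d_j = 0`, `c ≠ 0` in `D_l^m`; `S_dens` in the
division ring `D_l` gives `c' ∈ K_l^m`, `c' ≠ 0`, `∑ c'_j d_j = 0`. -/
def S_C : Prop :=
  ∀ (K : Type) [Field K] [CharZero K] (T : Data K) (D : Type) [DivisionRing D]
    (A : Alg T.toCore D), Base A → BaseE A → NoAlg A → S_dens → S_aw →
    ∀ (R : Subring D), (∀ x ∈ R, x⁻¹ ∈ R) → A.Fs ⊆ R →
    (∃ l₀, ∀ l, l₀ ≤ l → ∃ b ∈ R, b ≠ 0 ∧ ∃ e ∈ A.Dl l, b = e * A.u (l + 1)) →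
    (∃ l₁, ∀ l, l₁ ≤ l → ∀ x ∈ A.Dl l, (∀ s ∈ R, s ∈ A.Dl l → s * x = x * s) →
      ∃ y, T.g l y = y ∧ x = A.ι y) → R = ⊤

/-- PIECE D11a. `S` with `F(ω) S = D` for all `ω ∈ S ∖ F` contains an element of `K ∖ F`.
Proof. Fix `ω ∈ S ∖ F`, `k` with `ω ∈ E_k`, `S_k = S ∩ D_k`; every `d ∈ D_k` is `p⁻¹ a`,
`p ∈ F[ω]`, `a ∈ S_k`. By `S_aw` for `D_k` (independent family over the centre `K_k`: a `K_k`-basis
of `D_k`) there is `φ x = ∑ s_j x t_j` on `D_k`, non zero, `K_k`-linear with values in `K_k`.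
Choose `c, q ∈ F[ω]` not `0` with `c s_j ∈ S`, `q t_j ∈ S` for all `j`, and put
`ψ x = φ (x q) = ∑ s_j x (q t_j)`: non zero, `K_k`-linear, values in `K_k`, and
`c (ψ x) ∈ S` for `x ∈ S_k`. For `x, y ∈ S_k`: `ψ x ψ (c y) = ψ ((c ψ x) y) ∈ ψ S_k`. So for
`t ∈ T₀ = ψ (c S_k)`, `c t^j ∈ S` for all `j ≥ 0`: `F[t] c ⊆ S`. `T₀ ⊄ F`: if `κ ∈ K_k ∖ F`,
`r κ = a ∈ S_k`, `r ∈ F[ω]`, then `ψ (c a x) = κ ψ (c r x)` for `x ∈ S_k`, and some
`ψ (c r x) ≠ 0` because `K_k S_k = D_k` (it is a division ring containing `ω` and `S_k`). Take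
`t ∈ T₀ ∖ F`. `t` is algebraic over `F(c)` (if `c ∈ F` then `t ∈ S`; else D7b with `ω = c`,
`d = 1`, `e = t` at a level containing `c` and `t`), so there is a relation `∑ p_i(t) c^i = 0`, `p_i` polynomials over `F`,
`p_0 ≠ 0`; so `p_0(t) ∈ S` and `t p_0(t) ∈ S`; one of them is not in `F` (`NoAlg`). -/
def S_F1 : Prop :=
  ∀ (K : Type) [Field K] [CharZero K] (T : Data K) (D : Type) [DivisionRing D]
    (A : Alg T.toCore D), Base A → BaseE A → NoAlg A → S_aw → S_LF → S_alg2 →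
    ∀ (S : Subring D), A.Fs ⊆ S → (∃ ω ∈ S, ω ∉ A.Fs) →
    (∀ ω ∈ S, ω ∉ A.Fs → ∀ d : D, ∃ p ∈ Subring.closure (A.Fs ∪ {ω}), p ≠ 0 ∧ p * d ∈ S) →
    ∃ z : K, z ∉ fix T.g ∧ A.ι z ∈ S

/-- PIECE D11b. Then `S = D`. Proof. Let `z ∈ K ∖ F`, `ι z ∈ S`. For `h = (g l)^[i]`,
`u = (u l)^i`: `s(z) u ∈ S`, `s'(z) u⁻¹ ∈ S` (`s, s'` non zero polynomials over `F`), so
`s(z) u z^n s'(z) u⁻¹ = s(z) s'(h z) (h z)^n ∈ S`: `ρ_h (h z)^n ∈ S` for all `n`,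
`ρ_h = s(z) s'(h z) ∈ S ∩ K`, not `0`.  With `T.mer z`: `z⁻¹` is integral over
`R₀ = F[h z : h ∈ G_l]`; `ρ = ∏ ρ_h` satisfies `ρ R₀ ⊆ S`; `z⁻ᴺ ∈ ∑_{i<n} R₀ z⁻ⁱ`, so
`ρ' z⁻ᴺ ∈ S` for all `N`, `ρ' = ρ z^(n-1)` (`z ∈ R₀`). `ρ'⁻¹ = s(z)⁻¹ a`, `a ∈ S`, so
`s(z) z⁻ᴺ = a ρ' z⁻ᴺ ∈ S` for all `N`; with `N = ord_z s + 1` one gets `z⁻¹ ∈ S`.
So `S ∩ K` is a field, `F(z) ⊆ S`, `S = F(z) S = D`. -/
def S_F2 : Prop :=
  ∀ (K : Type) [Field K] [CharZero K] (T : Data K) (D : Type) [DivisionRing D]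
    (A : Alg T.toCore D), Base A → BaseE A → NoAlg A →
    ∀ (S : Subring D), A.Fs ⊆ S → (∃ z : K, z ∉ fix T.g ∧ A.ι z ∈ S) →
    (∀ ω ∈ S, ω ∉ A.Fs → ∀ d : D, ∃ p ∈ Subring.closure (A.Fs ∪ {ω}), p ≠ 0 ∧ p * d ∈ S) →
    S = ⊤

/-- PIECE D12 (PI). `D_l` is spanned by `N` elements over the central `K_l`, so it satisfies the
standard identity of degree `N+1`. -/
def S_PI : Prop :=
  ∀ (K : Type) [Field K] [CharZero K] (T : Data K) (D : Type) [DivisionRing D]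
    (A : Alg T.toCore D), Base A → BaseE A → ∀ l, ∃ N : ℕ, ∀ x : Fin N → D,
      (∀ i, x i ∈ A.Dl l) →
      ∑ s : Equiv.Perm (Fin N), ((Equiv.Perm.sign s : ℤ) : D) *
        (List.ofFn fun i => x (s i)).prod = 0

/-- PIECE D13 (assembly of the crossed product level; lead). -/
def S_final : Prop :=
  ∀ (K : Type) [Field K] [CharZero K] (_ : Data K),
    ∃ (F D : Type) (_ : Field F) (_ : DivisionRing D) (_ : Algebra F D),
      Subalgebra.center F D ≤ ⊥ ∧ ¬ FiniteDimensional F D ∧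
      ∀ A : Subalgebra F D, A ≠ ⊤ → ∃ n, ∃ f : FreeAlgebra F (Fin n), f ≠ 0 ∧
        ∀ a : Fin n → A, FreeAlgebra.lift F a f = 0

end Pool.Agent.Run7.h378
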