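import Pool.Agent.Run7.h378.Defs

/-!
# MP_5766af_al, S01535: interface, part 3 (the field level)

`E` is a residue field, algebraic over `ℂ(x)`, on which the Pruefer group acts by `x ↦ ζ x`,
together with an involution `ε`.  The big field is `H = E((s))`; `K ⊆ H` will be a countable
subfield, the automorphisms `g l` of `H` are perturbations of the coefficientwise ones.
-/

noncomputable section

namespace Pool.Agent.Run7.h378

open Finset

/-- Residue data. -/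
structure Res (E : Type) [Field E] [Algebra ℂ E] where
  x : E
  ζ : ℕ → ℂ
  ζ_zero : ζ 0 = 1
  ζ_one : ζ 1 = -1
  ζ_sq : ∀ l, ζ (l + 1) ^ 2 = ζ l
  x_tr : x ∉ Set.range (algebraMap ℂ E)
  alg : ∀ e : E, e ∈ acl (Set.range (algebraMap ℂ E) ∪ {x})
  σ : ℕ → (E ≃ₐ[ℂ] E)
  σ_zero : ∀ e, σ 0 e = e
  σ_sq : ∀ l e, σ (l + 1) (σ (l + 1) e) = σ l e
  σ_x : ∀ l, σ l x = algebraMap ℂ E (ζ l) * x
  ε : E ≃ₐ[ℂ] E
  ε_sq : ∀ e, ε (ε e) = e
  ε_x : ε x = x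
  ε_σ : ∀ l e, ε (σ l e) = σ l (ε e)
  /-- odd elements are never residually `G`-invariant modulo squares -/
  nsq : ∀ k, k ≠ 0 → ε k = -k → ∃ m, ∀ l, m ≤ l → ∀ β, k * σ l k ≠ β ^ 2
  κ : ℕ → E
  α : ℕ → E
  κ_ne : ∀ l, κ l ≠ 0
  α_ne : ∀ l, α l ≠ 0
  ε_κ : ∀ l, ε (κ l) = -κ l
  σ_κ : ∀ l, σ l (κ l) = κ l
  ε_α : ∀ l, ε (α l) = α l
  κ_succ : ∀ l, κ (l + 1) = (∏ i ∈ range (2 ^ l), (σ l)^[i] (α l)) * κ l

/-- PIECE F1 (existence of residue data).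
`E = ℂ(x)(y_ζ : ζ a root of unity of 2-power order)`, `y_ζ^2 = ζ x - 1`.
(a) In `L = LaurentSeries ℂ` let `y` be a power series with `y^2 = X - 1` and `y_ζ` = rescale by
`ζ` of `y`; `E` = subfield generated by `ℂ`, `x = X`, all `y_ζ`; `σ l` = restriction of
`rescale (ζ l)` (a compatible system `ζ l` of primitive `2^l`-th roots of unity).
(b) independence: `y_ζ ∉ E' = ℂ(x)(y_ξ : ξ ≠ ζ)`: let `ℂ(x) → ℂ((t))`, `x ↦ (1+t)/ζ`; extend to
an embedding of the algebraic extension `E'` in an algebraic closure of `ℂ((t))`; the image of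
`y_ξ` is a square root of `ξ(1+t)/ζ - 1`, a unit series with constant term `≠ 0`, so is in
`ℂ((t))`; so the image of `E'` is in `ℂ((t))`, where `ζ x - 1 = t` is not a square.
(c) so there is an automorphism `ε_ζ` of `E = E'(y_ζ)` over `E'` with `y_ζ ↦ -y_ζ`; they commute;
for a finite set `S` let `ε_S` be the product; `ε` = pointwise eventual value of `ε_S`
(`y_ζ ↦ -y_ζ` for all `ζ`).
(d) `nsq`: `k ∈ ℂ(x)(y_ζ : ζ ∈ S)`, `S = μ_{2^m}`; for `l > m` the sets `S` and `ζ_l S` are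
disjoint, `ε_S k = ε k = -k`, `ε_S (σ l k) = σ l k`; `k σ_l(k) = β^2` would give
`(ε_S β)^2 = -β^2`, `ε_S β = ± i β`, `ε_S (ε_S β) = -β`, against `ε_S^2 = 1`.
(e) `η = 1 + i y_1`, `η ε(η) = x`. `θ_l := w + ζ_{l+1} (η/σ_l η) ε(w)` with `w = 1` or `w = y_1`
such that `θ_l ≠ 0`; then `θ_l = ζ_{l+1} ε(θ_l) η / σ_l η`.
`α_l := θ_{l+1} σ_{l+1}(θ_{l+1}) / θ_l`, `κ_l := ∏_{i<2^l} σ_l^i (θ_l)`. -/
def S_res : Prop := ∃ (E : Type) (_ : Field E) (_ : Algebra ℂ E), Nonempty (Res E)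

variable {E : Type} [Field E] [Algebra ℂ E]

/-- the `s`-adic valuation of `H = E((s))` -/
def vH : AddValuation (LaurentSeries E) (WithTop ℤ) := HahnSeries.addVal ℤ E

/-- the variable -/
def sH : LaurentSeries E := HahnSeries.single 1 1

/-- constants from `E` -/
def eH : E →+* LaurentSeries E := HahnSeries.C

/-- constants from `ℂ` -/
def cH : ℂ →+* LaurentSeries E := (eH (E := E)).comp (algebraMap ℂ E)

/-- `ℂ((s))` inside `H` -/
def Ks : Set (LaurentSeries E) := {h | ∀ n, h.coeff n ∈ Set.range (algebraMap ℂ E)}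

/-- `ℂ((s))`-linear automorphisms of `H`, preserving the valuation, with residual action `ρ` -/
structure Adm (ρ : E ≃ₐ[ℂ] E) (τ : LaurentSeries E ≃+* LaurentSeries E) : Prop where
  map_s : τ sH = sH
  map_c : ∀ c : ℂ, τ (cH c) = cH c
  map_v : ∀ h, vH (τ h) = vH h
  res : ∀ (h : LaurentSeries E) (n : ℤ), (n : WithTop ℤ) ≤ vH h →
    (τ h).coeff n = ρ (h.coeff n)

/-- the twisted involution `s ↦ -s`, `ε` on coefficients -/
def IsEps (R : Res E) (e : LaurentSeries E ≃+* LaurentSeries E) : Prop :=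
  ∀ h (n : ℤ), (e h).coeff n = (-1 : E) ^ n * R.ε (h.coeff n)

/-- PIECE F2 (small). -/
def S_eps : Prop :=
  ∀ (E : Type) [Field E] [Algebra ℂ E] (R : Res E),
    ∃ e : LaurentSeries E ≃+* LaurentSeries E, IsEps R e

/-- generators of the base field attached to a set `P` of complex parameters -/
def gens (R : Res E) (P : Set ℂ) : Set (LaurentSeries E) :=
  (cH '' P) ∪ {sH, eH R.x}

/-- the field `M(P)`: the `ε`-invariant elements of `H` algebraic over `ℚ(P)(s, x)` -/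
def Mf (R : Res E) (eps : LaurentSeries E ≃+* LaurentSeries E) (P : Set ℂ) :
    Set (LaurentSeries E) :=
  {h | eps h = h ∧ h ∈ acl (gens R P)}

/-- norm-like product -/
def Nm {H : Type} [Field H] (g : H → H) (n : ℕ) (h : H) : H := ∏ i ∈ range n, g^[i] h

/-- `z_l`: the norm of `x` -/
def zl (R : Res E) (g : LaurentSeries E ≃+* LaurentSeries E) (l : ℕ) : LaurentSeries E :=
  Nm g (2 ^ l) (eH R.x)

/-- `P₀` is good: countable and all `κ l`, `α l` are algebraic over `ℚ(P₀)(x)`. -/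
def GoodP (R : Res E) (P₀ : Set ℂ) : Prop :=
  P₀.Countable ∧ ∀ l, R.κ l ∈ acl ((algebraMap ℂ E '' P₀) ∪ {R.x}) ∧
    R.α l ∈ acl ((algebraMap ℂ E '' P₀) ∪ {R.x})

/-- PIECE F4a. -/
def S_good : Prop :=
  AclFacts → ∀ (E : Type) [Field E] [Algebra ℂ E] (R : Res E), ∃ P₀, GoodP R P₀

/-- PIECE F4b (constants). `ℂ((s))` is algebraically closed in `H`, a subfield, and fixed by
admissible automorphisms.
`alg_closed`: `E` has the `ℂ`-linear derivation `∂` with `∂ x = 1` (`E` is separable algebraic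
over `ℂ(x)`), with kernel `ℂ`; apply it coefficientwise: a derivation of `H` with kernel
`ℂ((s))`; it kills everything algebraic over its kernel. -/
structure KsFacts (E : Type) [Field E] [Algebra ℂ E] (R : Res E) : Prop where
  field : ∃ F : Subfield (LaurentSeries E), (F : Set (LaurentSeries E)) = Ks
  alg_closed : ∀ h : LaurentSeries E, h ∈ acl (Ks : Set (LaurentSeries E)) → h ∈ Ks
  fixed : ∀ (ρ : E ≃ₐ[ℂ] E) (τ : LaurentSeries E ≃+* LaurentSeries E), Adm ρ τ →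
    ∀ h ∈ (Ks : Set (LaurentSeries E)), τ h = h
  res : ∀ h : LaurentSeries E, ∀ n : ℤ, (n : WithTop ℤ) ≤ vH h →
    h.coeff n ∉ Set.range (algebraMap ℂ E) → h ∉ Ks
  c_mem : ∀ c : ℂ, cH c ∈ (Ks : Set (LaurentSeries E))
  s_mem : sH ∈ (Ks : Set (LaurentSeries E))
  x_not_mem : eH R.x ∉ Ks
  eps_s : ∀ e, IsEps R e → e sH = -sH
  eps_c : ∀ e, IsEps R e → ∀ c : ℂ, e (cH c) = cH c
  eps_sq : ∀ e, IsEps R e → ∀ h, e (e h) = h

/-- PIECE F4b. -/
def S_Ks : Prop :=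
  AclFacts → ∀ (E : Type) [Field E] [Algebra ℂ E] (R : Res E), KsFacts E R

/-- Facts about the fields `Mf P`. -/
structure MfFacts (E : Type) [Field E] [Algebra ℂ E] (R : Res E)
    (eps : LaurentSeries E ≃+* LaurentSeries E) : Prop where
  field : ∀ P, ∃ F : Subfield (LaurentSeries E), (F : Set (LaurentSeries E)) = Mf R eps P
  mono : ∀ P P', P ⊆ P' → Mf R eps P ⊆ Mf R eps P'
  countable : ∀ P : Set ℂ, P.Countable → (Mf R eps P).Countable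
  x_mem : ∀ P, eH R.x ∈ Mf R eps P
  s_mem : ∀ P, sH ^ 2 ∈ Mf R eps P
  c_mem : ∀ P, ∀ c ∈ P, cH c ∈ Mf R eps P
  acl_eq : ∀ P, acl (Mf R eps P) = acl (gens R P)
  eps_acl : ∀ P h, h ∈ acl (gens R P) → eps h ∈ acl (gens R P)
  map : ∀ P P' (ρ : E ≃ₐ[ℂ] E) (τ : LaurentSeries E ≃+* LaurentSeries E), P ⊆ P' →
    Adm ρ τ → (∀ h, eps (τ h) = τ (eps h)) → τ (eH R.x) ∈ acl (gens R P') →
    ∀ h, (h ∈ Mf R eps P → τ h ∈ Mf R eps P') ∧ (h ∈ acl (gens R P) → τ h ∈ acl (gens R P'))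
  /-- two elements of `Mf P ∖ Ks` are interalgebraic over the constants `Mf P ∩ Ks` -/
  inter : ∀ P t y, t ∈ Mf R eps P → t ∉ Ks → y ∈ Mf R eps P →
    y ∈ acl ((Mf R eps P ∩ Ks) ∪ {t})
  /-- same over the generators -/
  inter' : ∀ P t y, t ∈ acl (gens R P) → t ∉ Ks → y ∈ acl (gens R P) →
    y ∈ acl ((cH '' P) ∪ {sH} ∪ {t})

/-- PIECE F5' (shared facts). `inter'`: `t ∈ acl (P, s, x)`; if `t ∈ acl (P, s)` then
`t ∈ acl Ks = Ks`; so exchange gives `x ∈ acl (P, s, t)`. `inter`: `s` is algebraic over `s^2`. -/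
def S_Mf : Prop :=
  AclFacts → ∀ (E : Type) [Field E] [Algebra ℂ E] (R : Res E), KsFacts E R →
    ∀ (eps : LaurentSeries E ≃+* LaurentSeries E), IsEps R eps → MfFacts E R eps

/-- PIECE F5 (the analytic heart: solving for a square root of `g`).
Work in `R = E[[s]]`. 'Admissible endomorphism': ring hom `φ : R → R` with `φ s = s`, `φ = id` on
`ℂ`, residual action `φ₀`.
(U') If `φ ≡ ψ` mod `s^n` on `R` (`n ≥ 1`, same residual action) and `φ z ≡ ψ z` mod `s^(n+1)` for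
one `z` with residue `z₀ ∉ ℂ`, then `φ ≡ ψ` mod `s^(n+1)`: the `s^n`-coefficient of `φ - ψ`
factors through a `φ₀`-derivation of `E` over `ℂ` killing `z₀`; `E` is algebraic over `ℂ(z₀)`.
(T) Let `∂` be the coefficientwise derivation of `R` (`∂ x = 1` on `E`), `φ₀` also denote the
coefficientwise extension of `σ (l+1)`, `z' = φ₀ z`, `∂' = (∂ z')⁻¹ ∂`, so `∂' z' = 1`.
For `δ ∈ s R` let `φ_δ r = ∑_n (δ^n / n!) ∂'^n (φ₀ r)`: an admissible endomorphism with residual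
action `σ (l+1)`, `φ_δ z = z' + δ`; `δ ≡ δ'` mod `s^n` implies `φ_δ ≡ φ_δ'` mod `s^n`.
(S) Put `Ψ φ = ∑ c_j (A_j φ(B_j) + B_j φ(A_j))`. Iterate `y ↦ -z + s^2 Ψ (φ_{y - z'})` from
`y = -z` (`-z ≡ z'` mod `s`); limit `y`, `τ = φ_{y - z'}` satisfies `z + τ z = s^2 Ψ τ`.
Unique among admissible endomorphisms with residual action `σ (l+1)` by (U').
`τ τ = g`: by induction on `n`, `τ τ ≡ g` mod `s^n` on `R`: applying `τ` to the equation,
`τz + ττz = s^2 ∑ c_j (τA_j ττB_j + τB_j ττA_j) ≡ s^2 ∑ c_j (τA_j B_j + τB_j A_j) = z + τz`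
mod `s^(n+2)`, so `ττz ≡ z = g z` mod `s^(n+2)` and (U').  So `τ` is bijective.
`eps τ eps⁻¹` satisfies the same equation, so equals `τ`. Extend `τ` to `H = Frac R`. -/
def S_solve : Prop :=
  AclFacts → ∀ (E : Type) [Field E] [Algebra ℂ E] (R : Res E)
    (eps : LaurentSeries E ≃+* LaurentSeries E), IsEps R eps →
    ∀ (l : ℕ) (g : LaurentSeries E ≃+* LaurentSeries E), Adm (R.σ l) g →
    (∀ h, eps (g h) = g (eps h)) →
    ∀ z : LaurentSeries E, 0 ≤ vH z → g z = z → eps z = z →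
      z.coeff 0 ∉ Set.range (algebraMap ℂ E) → R.σ (l + 1) (z.coeff 0) = -z.coeff 0 →
    ∀ (k : ℕ) (c A B : Fin k → LaurentSeries E),
      (∀ j, 0 ≤ vH (c j) ∧ c j ∈ Ks ∧ eps (c j) = c j) →
      (∀ j, 0 ≤ vH (A j) ∧ g (A j) = A j ∧ eps (A j) = A j) →
      (∀ j, 0 ≤ vH (B j) ∧ g (B j) = B j ∧ eps (B j) = B j) →
    ∃ τ : LaurentSeries E ≃+* LaurentSeries E, Adm (R.σ (l + 1)) τ ∧
      (∀ h, τ (τ h) = g h) ∧ (∀ h, eps (τ h) = τ (eps h)) ∧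
      z + τ z = sH ^ 2 * ∑ j, c j * (A j * τ (B j) + B j * τ (A j))

/-- State at stage `l`. -/
structure St (R : Res E) (eps : LaurentSeries E ≃+* LaurentSeries E) (P₀ : Set ℂ) (l : ℕ) where
  P : Set ℂ
  cnt : P.Countable
  sub : P₀ ⊆ P
  g : LaurentSeries E ≃+* LaurentSeries E
  adm : Adm (R.σ l) g
  ord : ∀ h, g^[2 ^ l] h = h
  comm : ∀ h, eps (g h) = g (eps h)
  gx : g (eH R.x) ∈ acl (gens R P)
  c : LaurentSeries E
  c_mem : c ∈ Mf R eps P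
  g_c : g c = c
  v_c : vH c = 1
  res_c : c.coeff 1 = R.κ l

/-- Facts about a state and the elements `z_{l-j}`. -/
structure StFacts {R : Res E} {eps : LaurentSeries E ≃+* LaurentSeries E} {P₀ : Set ℂ} {l : ℕ}
    (S : St R eps P₀ l) : Prop where
  g_Mf : ∀ h, h ∈ Mf R eps S.P → S.g h ∈ Mf R eps S.P
  z_mem : zl R S.g l ∈ Mf R eps S.P
  z_g : S.g (zl R S.g l) = zl R S.g l
  z_eps : eps (zl R S.g l) = zl R S.g l
  z_v : vH (zl R S.g l) = 0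
  z_res : (zl R S.g l).coeff 0 ∉ Set.range (algebraMap ℂ E)
  z_σ : R.σ (l + 1) ((zl R S.g l).coeff 0) = -(zl R S.g l).coeff 0
  z_Ks : zl R S.g l ∉ Ks
  zj_mem : ∀ j, j ≤ l → Nm (S.g^[2 ^ j]) (2 ^ (l - j)) (eH R.x) ∈ Mf R eps S.P
  zj_g : ∀ j, j ≤ l → S.g^[2 ^ j] (Nm (S.g^[2 ^ j]) (2 ^ (l - j)) (eH R.x)) =
    Nm (S.g^[2 ^ j]) (2 ^ (l - j)) (eH R.x)
  zj_ne : ∀ j, j ≤ l → ∀ i, 0 < i → i < 2 ^ j →
    S.g^[i] (Nm (S.g^[2 ^ j]) (2 ^ (l - j)) (eH R.x)) ≠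
      Nm (S.g^[2 ^ j]) (2 ^ (l - j)) (eH R.x)
  nm_g : ∀ h, S.g (Nm S.g (2 ^ l) h) = Nm S.g (2 ^ l) h
  nm_mem : ∀ h, h ∈ Mf R eps S.P → Nm S.g (2 ^ l) h ∈ Mf R eps S.P

/-- PIECE F5'' (state facts). Residue of `Nm (g^[2^j]) (2^(l-j)) x` is a non zero complex constant
times `x^(2^(l-j))` (`σ (l-j) = (σ l)^[2^j]`, `σ_x`), and `(ζ l)^(2^(l-1)) = -1` for `l ≥ 1`. -/
def S_St : Prop :=
  AclFacts → ∀ (E : Type) [Field E] [Algebra ℂ E] (R : Res E), KsFacts E R →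
    ∀ (eps : LaurentSeries E ≃+* LaurentSeries E), IsEps R eps → MfFacts E R eps →
    ∀ (P₀ : Set ℂ) (l : ℕ) (S : St R eps P₀ l), StFacts S

/-- Choice made at stage `l` for the treated element `e`: elements `Y i` to be captured, and the
function `m`. -/
structure Cho {R : Res E} {eps : LaurentSeries E ≃+* LaurentSeries E} {P₀ : Set ℂ} {l : ℕ}
    (S : St R eps P₀ l) (e : LaurentSeries E) where
  n : ℕ
  Y : Fin n → LaurentSeries E
  Y_mem : ∀ i, Y i ∈ Mf R eps S.P ∧ S.g (Y i) = Y i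
  z_Y : ∃ i, Y i = zl R S.g l
  cap : ∀ j, j ≤ l → S.g^[2 ^ j] e = e →
    e ∈ Subfield.closure (Set.range Y ∪ {Nm (S.g^[2 ^ j]) (2 ^ (l - j)) (eH R.x)})
  w : LaurentSeries E
  w_mem : w ∈ Mf R eps S.P ∧ S.g w = w
  w_Ks : w ∉ Ks
  w_eq : Nm S.g (2 ^ l) e ∉ Ks → w = Nm S.g (2 ^ l) e
  m : LaurentSeries E
  m_mem : m ∈ Mf R eps S.P ∧ S.g m = m
  m_ne : m ≠ 0
  int_m : IsIntegral (Subring.closure ((Mf R eps S.P ∩ Ks) ∪ {w})) (m / w)
  int_mY : ∀ i, IsIntegral (Subring.closure ((Mf R eps S.P ∩ Ks) ∪ {w})) (m * Y i / w)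

/-- PIECE F6 (choice). `z_l = zl R g l` lies in `M(P)` (`gx`), is `g`-invariant, its residue is
`± x^(2^l)`, not in `ℂ`, so `z_l ∉ Ks`.
Elements of `M(P) ∖ Ks` are interalgebraic over `Mf ∩ Ks` (exchange): for `w ∈ Mf`, `w ∉ Ks` every
`y ∈ Mf` is algebraic over `(Mf ∩ Ks)(w)`; so `q y` is integral over `(Mf ∩ Ks)[w]` for some
`q ≠ 0` in it. Take `w = ` norm of `e` if not in `Ks`, else `w = z_l`; `q` common for all `Y i`,
`m = w q`.
Captured elements: `z_l` and, for each `j ≤ l` with `g^[2^j] e = e`, put `h = g` acting on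
`ζ = Nm (g^[2^j]) (2^(l-j)) x = z_{l-j}`, whose conjugates `g^[i] ζ`, `i < 2^j`, are different
(residues `± (ζ_l^i x)^(2^(l-j))`); Lagrange interpolation: `e = p(ζ)`, `p` of degree `< 2^j` with
`g`-invariant coefficients in `M(P)`; these coefficients are captured. -/
def S_cho : Prop :=
  AclFacts → ∀ (E : Type) [Field E] [Algebra ℂ E] (R : Res E), KsFacts E R →
    ∀ (eps : LaurentSeries E ≃+* LaurentSeries E), IsEps R eps → MfFacts E R eps →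
    ∀ (P₀ : Set ℂ) (l : ℕ) (S : St R eps P₀ l), StFacts S → ∀ (e : LaurentSeries E),
      e ∈ Mf R eps S.P → Nonempty (Cho S e)

/-- The relation at stage `l` with generic parameters. -/
structure Rel {R : Res E} {eps : LaurentSeries E ≃+* LaurentSeries E} {P₀ : Set ℂ} {l : ℕ}
    {S : St R eps P₀ l} {e : LaurentSeries E} (C : Cho S e) where
  τ : LaurentSeries E ≃+* LaurentSeries E
  adm : Adm (R.σ (l + 1)) τ
  sq : ∀ h, τ (τ h) = S.g h
  comm : ∀ h, eps (τ h) = τ (eps h)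
  N : ℕ
  k : ℕ
  A : Fin k → LaurentSeries E
  B : Fin k → LaurentSeries E
  a : Fin k → ℂ
  f : ℂ
  f_ne : f ≠ 0
  /-- the terms are `(1/2, 1)`, `(Y/2, Y)`, `(Y, 1)` -/
  AB : ∀ j, (A j = 1 / 2 ∧ B j = 1) ∨ (∃ i, A j = C.Y i / 2 ∧ B j = C.Y i) ∨
    (∃ i, A j = C.Y i ∧ B j = 1)
  AB1 : ∃ j, A j = 1 / 2 ∧ B j = 1
  AB2 : ∀ i, ∃ j, A j = C.Y i / 2 ∧ B j = C.Y i
  AB3 : ∀ i, ∃ j, A j = C.Y i ∧ B j = 1
  gen_a : ∀ j, cH (a j) ∉ acl (gens R (S.P ∪ {c | ∃ i, i < j ∧ c = a i}))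
  gen_f : cH f ∉ acl (gens R (S.P ∪ Set.range a))
  rel : cH f = C.m * τ C.m * ((sH ^ (2 * N))⁻¹ * (zl R S.g l + τ (zl R S.g l)) +
    ∑ j, cH (a j) * (A j * τ (B j) + B j * τ (A j)))

/-- PIECE F7. Existence of generic parameters: `ℂ` is uncountable, `acl` of a countable set is
countable. Then `S_solve` for `z = z_l` (`R.σ (l+1) (z.coeff 0) = - z.coeff 0` because
`ζ (l+1) ^ (2^l) = -1`) and the equation
`z + τ z = s^(2N) (f m⁻¹ τ(m)⁻¹ - ∑ a_j (A_j τ B_j + B_j τ A_j))`, where `r` is large with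
`s^(2r) m⁻¹`, `s^(2r) A_j`, `s^(2r) B_j` of value `≥ 0` and `N ≥ 2 r + 1`. -/
def S_rel : Prop :=
  AclFacts → S_solve → ∀ (E : Type) [Field E] [Algebra ℂ E] (R : Res E), KsFacts E R →
    ∀ (eps : LaurentSeries E ≃+* LaurentSeries E), IsEps R eps → MfFacts E R eps →
    ∀ (P₀ : Set ℂ) (l : ℕ) (S : St R eps P₀ l), StFacts S → ∀ (e : LaurentSeries E) (C : Cho S e),
      Nonempty (Rel C)

/-- Consequences of genericity. -/
structure RelFacts {R : Res E} {eps : LaurentSeries E ≃+* LaurentSeries E} {P₀ : Set ℂ} {l : ℕ}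
    {S : St R eps P₀ l} {e : LaurentSeries E} {C : Cho S e} (Q : Rel C) : Prop where
  free : ∀ t, t ∈ Mf R eps S.P → t ∉ Ks → Q.τ t ∉ acl (Mf R eps S.P)
  τx : Q.τ (eH R.x) ∈ acl (gens R (S.P ∪ Set.range Q.a ∪ {Q.f}))
  gen : ∀ j, cH (Q.a j) ∉
    acl (Mf R eps S.P ∪ Q.τ '' Mf R eps S.P ∪ {h | ∃ i, i < j ∧ h = cH (Q.a i)})

/-- PIECE F8 (`B = gens R P`, `z = z_l`).
`f ∈ acl (B, a, τ z)` from the relation: `m, A_j, B_j` are in `acl (P, s, z)`, so their images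
under `τ` in `acl (P, s, τ z)`. `f ∉ acl (B, a)`, so exchange: `τ z ∈ acl (B, a, f)`, and
`x ∈ acl (P, s, z)` gives `τx`. `gen`: if `a_j ∈ acl (B, τ z, a_{<j})`, as `a_j ∉ acl (B, a_{<j})`
exchange gives `τ z ∈ acl (B, a_{≤j})`, so `f ∈ acl (B, a)`, contradiction. `free`: if
`τ t ∈ acl (Mf) = acl B`, `z ∈ acl (P, s, t)`, so `τ z ∈ acl B`, so `f ∈ acl (B, a)`. -/
def S_facts : Prop :=
  AclFacts → ∀ (E : Type) [Field E] [Algebra ℂ E] (R : Res E), KsFacts E R →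
    ∀ (eps : LaurentSeries E ≃+* LaurentSeries E), IsEps R eps → MfFacts E R eps →
    ∀ (P₀ : Set ℂ) (l : ℕ) (S : St R eps P₀ l), StFacts S → ∀ (e : LaurentSeries E) (C : Cho S e)
      (Q : Rel C), RelFacts Q

/-- PIECE F9a (generic extraction, pure field theory). Proof: `X = L ∩ Ω`. `A + T B ∈ Ω[T]` is
integral over `X[T]` up to a denominator, so there is `P ∈ X[T][S]`, `P ≠ 0`, with
`P(T, A + T B) = 0`; take the `S`-degree minimal; then `P_S (T, A + T B) ≠ 0` (char 0).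
Differentiate in `T`: `P_T + B P_S = 0`; evaluate at the transcendental `a`:
`B = - P_T(a, A + a B) / P_S(a, A + a B) ∈ L`. -/
def S_gen1 : Prop :=
  ∀ (K : Type) [Field K] [CharZero K] (Ω L : Subfield K) (a A B : K),
    a ∉ acl (Ω : Set K) → A ∈ Ω → B ∈ Ω →
    A ∈ acl ((L : Set K) ∩ (Ω : Set K)) → B ∈ acl ((L : Set K) ∩ (Ω : Set K)) →
    a ∈ L → A + a * B ∈ L → B ∈ L ∧ A ∈ L

/-- PIECE F9b (iterate F9a). -/
def S_gen : Prop :=
  AclFacts → S_gen1 → ∀ (K : Type) [Field K] [CharZero K] (Ω L : Subfield K) (k : ℕ)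
    (a B : Fin k → K) (A : K),
    (∀ j, a j ∉ acl ((Ω : Set K) ∪ {h | ∃ i, i < j ∧ h = a i})) →
    A ∈ Ω → (∀ j, B j ∈ Ω) →
    A ∈ acl ((L : Set K) ∩ (Ω : Set K)) → (∀ j, B j ∈ acl ((L : Set K) ∩ (Ω : Set K))) →
    (∀ j, a j ∈ L) → A + ∑ j, a j * B j ∈ L → ∀ j, B j ∈ L

/-- PIECE F9c (quadratic trick). If `y ∉ L` its minimal polynomial over `L` is
`X^2 - (y + y') X + y y'`; it divides a polynomial over the field generated by `S` killing `y`,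
so `y'` is a root of it too. -/
def S_quad : Prop :=
  ∀ (K : Type) [Field K] (L : Subfield K) (S : Set K) (y y' : K), S ⊆ L →
    y + y' ∈ L → y * y' ∈ L → y ∈ acl S → y' ∉ acl S → y ∈ L

/-- PIECE F10 (rigidity at stage `l`). `Ω = acl (Mf ∪ τ Mf)`. For `z' ∈ L ∩ Mf`, `z' ∉ Ks`,
`τ z' ∈ L`: everything in `Ω` is algebraic over `(Mf ∩ Ks) ∪ {z', τ z'} ⊆ L ∩ Ω`
(`MfFacts.inter`). `S_gen`
applied to the relation: `m τ(m) (A_j τ B_j + B_j τ A_j) ∈ L` for all `j`; so `m τ(m) ∈ L`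
(`AB1`), `Y τ Y ∈ L`, `Y + τ Y ∈ L`; `S_quad` with `S = (Mf ∩ Ks) ∪ {z'}` (if `Y ∈ Ks` trivial;
`τ Y ∉ acl Mf` by `free`). -/
def S_rig : Prop :=
  AclFacts → S_gen → S_gen1 → S_quad →
    ∀ (E : Type) [Field E] [Algebra ℂ E] (R : Res E), KsFacts E R →
    ∀ (eps : LaurentSeries E ≃+* LaurentSeries E), IsEps R eps → MfFacts E R eps →
    ∀ (P₀ : Set ℂ) (l : ℕ) (S : St R eps P₀ l), StFacts S → ∀ (e : LaurentSeries E) (C : Cho S e)
      (Q : Rel C), RelFacts Q → ∀ (L : Subfield (LaurentSeries E)),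
      (∀ h, h ∈ Mf R eps (S.P ∪ Set.range Q.a ∪ {Q.f}) → h ∈ Ks → h ∈ L) →
      (∃ z', z' ∈ L ∧ z' ∈ Mf R eps S.P ∧ z' ∉ Ks ∧ Q.τ z' ∈ L) → ∀ i, C.Y i ∈ L

/-- PIECE F11 (merging at stage `l`). If the norm `w'` of `e` is in `Ks`:
`e⁻¹ = w'⁻¹ ∏_{0<i<2^l} g^[i] e`. Else `w = w'`, and the relation says `f = w τ(w) Ξ` with `Ξ`
integral over `F[w, τ w]`; so `w⁻¹ = f⁻¹ τ(w) Ξ` and `e⁻¹ = w⁻¹ ∏_{0<i<2^l} g^[i] e` are integral
(`g = τ²`). -/
def S_mer : Prop :=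
  AclFacts → ∀ (E : Type) [Field E] [Algebra ℂ E] (R : Res E), KsFacts E R →
    ∀ (eps : LaurentSeries E ≃+* LaurentSeries E), IsEps R eps → MfFacts E R eps →
    ∀ (P₀ : Set ℂ) (l : ℕ) (S : St R eps P₀ l), StFacts S → ∀ (e : LaurentSeries E) (C : Cho S e)
      (Q : Rel C), e ∈ Mf R eps S.P → e ∉ Ks →
      IsIntegral (Subring.closure ((Mf R eps (S.P ∪ Set.range Q.a ∪ {Q.f}) ∩ Ks) ∪
        {y | ∃ i, y = Q.τ^[i] e})) e⁻¹

/-- PIECE F12 (cocycle). `N = Nm g (2^l)`, `θ = eH (R.α l)`,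
`β = (τ c / c) * N(τ θ) / N θ = 1 + O(s)`, fixed by `g` and `eps`, `τ β = β⁻¹`;
`γ = 1 + O(s)` the unique one with `γ^(2^l) = β`; so `g γ = γ`, `eps γ = γ`, `τ γ = γ⁻¹`.
`α = (1 + γ) θ / 2`. Then `α / τ α = γ θ / τ θ`, `N(α / τ α) = τ c / c`, so `N(α) c` is fixed by
`τ`; its residue is `κ (l+1)`. -/
def S_coc : Prop :=
  AclFacts → ∀ (E : Type) [Field E] [Algebra ℂ E] (R : Res E), KsFacts E R →
    ∀ (eps : LaurentSeries E ≃+* LaurentSeries E), IsEps R eps → MfFacts E R eps →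
    ∀ (P₀ : Set ℂ), GoodP R P₀ → ∀ (l : ℕ) (S : St R eps P₀ l), StFacts S → ∀
      (τ : LaurentSeries E ≃+* LaurentSeries E) (P' : Set ℂ), S.P ⊆ P' →
      Adm (R.σ (l + 1)) τ → (∀ h, τ (τ h) = S.g h) → (∀ h, eps (τ h) = τ (eps h)) →
      τ (eH R.x) ∈ acl (gens R P') →
      ∃ α : LaurentSeries E, α ∈ Mf R eps P' ∧ vH α = 0 ∧
        τ (Nm S.g (2 ^ l) α * S.c) = Nm S.g (2 ^ l) α * S.c ∧
        vH (Nm S.g (2 ^ l) α * S.c) = 1 ∧
        (Nm S.g (2 ^ l) α * S.c).coeff 1 = R.κ (l + 1)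

/-- One step of the construction, treating `e`. -/
structure Step {R : Res E} {eps : LaurentSeries E ≃+* LaurentSeries E} {P₀ : Set ℂ} {l : ℕ}
    (S : St R eps P₀ l) (e : LaurentSeries E) (S' : St R eps P₀ (l + 1))
    (α : LaurentSeries E) : Prop where
  P_sub : S.P ⊆ S'.P
  sq : ∀ h, S'.g (S'.g h) = S.g h
  α_mem : α ∈ Mf R eps S'.P
  v_α : vH α = 0
  c_eq : S'.c = Nm S.g (2 ^ l) α * S.c
  free : ∀ t, t ∈ Mf R eps S.P → t ∉ Ks → S'.g t ∉ acl (Mf R eps S.P)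
  rig : ∀ (L : Subfield (LaurentSeries E)), (∀ h, h ∈ Mf R eps S'.P → h ∈ Ks → h ∈ L) →
    (∃ z', z' ∈ L ∧ z' ∈ Mf R eps S.P ∧ z' ∉ Ks ∧ S'.g z' ∈ L) →
    zl R S.g l ∈ L ∧ ∀ j, j ≤ l → S.g^[2 ^ j] e = e →
      e ∈ Subfield.closure ((L : Set (LaurentSeries E)) ∪
        {Nm (S.g^[2 ^ j]) (2 ^ (l - j)) (eH R.x)})
  mer : e ∉ Ks → IsIntegral (Subring.closure ((Mf R eps S'.P ∩ Ks) ∪
        {y | ∃ i, y = S'.g^[i] e})) e⁻¹

/-- PIECE F13 (assembly of one step from F6-F12). -/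
def S_step : Prop :=
  AclFacts → S_solve → S_Mf → S_St → S_cho → S_rel → S_facts → S_gen → S_gen1 → S_quad →
    S_rig → S_mer → S_coc → ∀ (E : Type) [Field E] [Algebra ℂ E] (R : Res E), KsFacts E R →
    ∀ (eps : LaurentSeries E ≃+* LaurentSeries E), IsEps R eps →
    ∀ (P₀ : Set ℂ), GoodP R P₀ → ∀ (l : ℕ) (S : St R eps P₀ l) (e : LaurentSeries E),
      e ∈ Mf R eps S.P → ∃ (S' : St R eps P₀ (l + 1)) (α : LaurentSeries E), Step S e S' α

/-- PIECE F14 (bookkeeping, abstract). A dependent sequence `X l` of stages, `M l x` a countable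
set (increasing along steps) of elements to be treated, step relation `T l x e x'`. Then there is
a sequence in which every element is treated at arbitrarily late stages. (Keep enumerations of
the earlier sets in the state, and use `Nat.unpair`.) -/
def S_book : Prop :=
  ∀ (X : ℕ → Type) (V : Type) (M : ∀ l, X l → Set V), (∀ l x, (M l x).Countable) →
    (∀ l x, (M l x).Nonempty) →
    ∀ (T : ∀ l, X l → V → X (l + 1) → Prop),
    (∀ l x e, e ∈ M l x → ∃ x', T l x e x' ∧ M l x ⊆ M (l + 1) x') → ∀ x₀ : X 0,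
    ∃ (x : ∀ l, X l) (e : ℕ → V), x 0 = x₀ ∧ (∀ l, e l ∈ M l (x l)) ∧
      (∀ l, M l (x l) ⊆ M (l + 1) (x (l + 1))) ∧
      (∀ l, T l (x l) (e l) (x (l + 1))) ∧
      ∀ l v, v ∈ M l (x l) → ∀ l₀, ∃ l', l₀ ≤ l' ∧ e l' = v

/-- PIECE F15 (assembly of the field level). `K = ⋃ Mf (P l)`, a subfield of `H`, with the
restrictions of `vH` and of the `g l`; `M l = Mf (P l)`; `fix = K ∩ Ks` by `free`;
`acl_F`: `KsFacts.alg_closed`; `trdeg`: exchange; `nsq`: leading coefficients and `R.nsq`;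
initial state: `g = id`, `c = sH * eH (κ 0)`. -/
def S_data : Prop :=
  AclFacts → S_Ks → S_good → S_eps → S_Mf → S_St → S_book →
    (∀ (E : Type) [Field E] [Algebra ℂ E] (R : Res E), KsFacts E R →
      ∀ (eps : LaurentSeries E ≃+* LaurentSeries E), IsEps R eps →
      ∀ (P₀ : Set ℂ), GoodP R P₀ → ∀ (l : ℕ) (S : St R eps P₀ l) (e : LaurentSeries E),
      e ∈ Mf R eps S.P → ∃ (S' : St R eps P₀ (l + 1)) (α : LaurentSeries E), Step S e S' α) →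
    S_res → ∃ (K : Type) (_ : Field K) (_ : CharZero K), Nonempty (Data K)

end Pool.Agent.Run7.h378
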