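import Pool.Agent.Run7.h378.IfaceD

/-!
PIECE D12: the standard identity of `D_l`.
-/

noncomputable section

namespace Pool.Agent.Run7.h378

open Finset

/-- fixed subfield of one automorphism -/
def fixg {K : Type} [Field K] (g : K ≃+* K) : Subfield K where
  carrier := {x | g x = x}
  mul_mem' := fun {a b} ha hb => by
    rw [Set.mem_ofPred_eq] at *
    rw [map_mul, ha, hb]
  one_mem' := map_one _
  add_mem' := fun {a b} ha hb => by
    rw [Set.mem_ofPred_eq] at *
    rw [map_add, ha, hb]
  zero_mem' := map_zero _
  neg_mem' := fun {a} ha => by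
    rw [Set.mem_ofPred_eq] at *
    rw [map_neg, ha]
  inv_mem' := fun a ha => by
    rw [Set.mem_ofPred_eq] at *
    rw [map_inv₀, ha]

/-- `D_l` as a subring -/
def DlS {K : Type} [Field K] [CharZero K] {D : Type} [DivisionRing D] {C : Core K}
    {A : Alg C D} (hB : Base A) (l : ℕ) : Subring D where
  carrier := A.Dl l
  mul_mem' := fun {a b} ha hb => hB.mul_mem l a b ha hb
  one_mem' := hB.one_mem l
  add_mem' := fun {a b} ha hb => hB.add_mem l a b ha hb
  zero_mem' := hB.zero_mem l
  neg_mem' := fun {a} ha => hB.neg_mem l a ha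

theorem p_PI : S_PI := by
  classical
  intro K _ _ T D _ A hB hBE l
  obtain ⟨N, e, he, h1, _⟩ := hBE.basis l
  refine ⟨N + 1, fun x hx => ?_⟩
  let k := fixg (T.g l)
  let R := DlS hB l
  let i : k →+* R :=
    { toFun := fun x => ⟨A.ι x, hB.ι_mem l x⟩
      map_one' := Subtype.ext (by simp)
      map_mul' := fun a b => Subtype.ext (by simp)
      map_zero' := Subtype.ext (by simp)
      map_add' := fun a b => Subtype.ext (by simp) }
  let _ : Algebra k R := i.toAlgebra' fun c d => Subtype.ext (hB.cen l c c.2 d d.2)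
  have hsm : ∀ (c : k) (d : R), ((c • d : R) : D) = A.ι c * d := fun c d => rfl
  let e' : Fin N → R := fun j => ⟨e j, hBE.sub l (he j)⟩
  have hspan : Submodule.span k (Set.range e') = ⊤ := by
    rw [eq_top_iff]
    intro d _
    obtain ⟨y, hy, hd⟩ := h1 d d.2
    have : d = ∑ j, (⟨y j, hy j⟩ : k) • e' j := by
      apply Subtype.ext
      rw [AddSubmonoidClass.coe_finsetSum, hd]
      rfl
    rw [this]
    exact Submodule.sum_mem _ fun j _ => Submodule.smul_mem _ _ (Submodule.subset_span ⟨j, rfl⟩)
  have hfin : Module.Finite k R := ⟨⟨Finset.univ.image e', by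
    rw [Finset.coe_image, Finset.coe_univ, Set.image_univ, hspan]⟩⟩
  have hrank : Module.finrank k R ≤ N := by
    have h2 := finrank_range_le_card (R := k) e'
    rw [Set.finrank, hspan, finrank_top, Fintype.card_fin] at h2
    exact h2
  let v : Fin (N + 1) → R := fun j => ⟨x j, hx j⟩
  have hdep : ¬ LinearIndependent k v := by
    intro h
    have h2 := h.fintype_card_le_finrank
    rw [Fintype.card_fin] at h2
    omega
  have h3 := (MultilinearMap.alternatization
    (MultilinearMap.mkPiAlgebraFin k (N + 1) R)).map_linearDependent v hdep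
  rw [MultilinearMap.alternatization_apply] at h3
  have h4 := congrArg (Subtype.val : R → D) h3
  rw [AddSubmonoidClass.coe_finsetSum] at h4
  rw [ZeroMemClass.coe_zero] at h4
  rw [← h4]
  refine Finset.sum_congr rfl fun s _ => ?_
  rw [MultilinearMap.domDomCongr_apply, MultilinearMap.mkPiAlgebraFin_apply, Units.smul_def,
    zsmul_eq_mul, Subring.coe_mul]
  congr 1
  have : ∀ L : List R, ((L.prod : R) : D) = (L.map R.subtype).prod := fun L => by
    rw [← map_list_prod]; rfl
  rw [this, List.map_ofFn]
  rfl

end Pool.Agent.Run7.h378
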