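import Pool.Agent.Run7.h378.Solve4

/-!
PIECE F7: generic parameters and the relation.
-/

noncomputable section

namespace Pool.Agent.Run7.h378

open Finset Solve

variable {E : Type} [Field E] [Algebra ℂ E]

theorem cH_inj : Function.Injective (cH (E := E)) := (cH (E := E)).injective

theorem exists_gen (hacl : AclFacts) (R : Res E) {P : Set ℂ} (hP : P.Countable) :
    ∃ c : ℂ, cH c ∉ acl (gens R P) := by
  by_contra h
  push Not at h
  have h1 : (gens R P).Countable :=
    (hP.image _).union ((Set.countable_singleton _).insert _)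
  have h2 := hacl.countable _ _ h1
  have h3 : (Set.univ : Set ℂ).Countable := by
    have : (cH (E := E)) '' Set.univ ⊆ acl (gens R P) := by
      rintro _ ⟨c, _, rfl⟩
      exact h c
    exact Set.countable_of_injective_of_countable_image (cH_inj (E := E)).injOn (h2.mono this)
  exact not_countable_complex h3

/-- a generic sequence -/
theorem exists_gens (hacl : AclFacts) (R : Res E) {P : Set ℂ} (hP : P.Countable) (k : ℕ) :
    ∃ (a : Fin k → ℂ) (f : ℂ), (∀ j, cH (a j) ∉ acl (gens R (P ∪ {c | ∃ i, i < j ∧ c = a i}))) ∧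
      cH f ∉ acl (gens R (P ∪ Set.range a)) := by
  induction k with
  | zero =>
    obtain ⟨f, hf⟩ := exists_gen hacl R hP
    refine ⟨fun j => j.elim0, f, fun j => j.elim0, ?_⟩
    rw [Set.range_eq_empty, Set.union_empty]
    exact hf
  | succ k ih =>
    obtain ⟨a, f, h1, h2⟩ := ih
    have hc : (P ∪ Set.range a ∪ {f}).Countable :=
      (hP.union (Set.countable_range a)).union (Set.countable_singleton f)
    obtain ⟨f', hf'⟩ := exists_gen hacl R hc
    refine ⟨Fin.snoc a f, f', fun j => ?_, ?_⟩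
    · refine Fin.lastCases ?_ (fun j => ?_) j
      · rw [Fin.snoc_last]
        have : {c | ∃ i, i < Fin.last k ∧ c = (Fin.snoc a f : Fin (k + 1) → ℂ) i} =
            Set.range a := by
          ext c
          constructor
          · rintro ⟨i, hi, rfl⟩
            obtain ⟨i', rfl⟩ : ∃ i' : Fin k, i = i'.castSucc :=
              ⟨i.castPred (Fin.ne_of_lt hi), by simp⟩
            rw [Fin.snoc_castSucc]
            exact ⟨i', rfl⟩
          · rintro ⟨i, rfl⟩
            exact ⟨i.castSucc, Fin.castSucc_lt_last i, by rw [Fin.snoc_castSucc]⟩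
        rw [this]
        exact h2
      · rw [Fin.snoc_castSucc]
        have : {c | ∃ i, i < j.castSucc ∧ c = (Fin.snoc a f : Fin (k + 1) → ℂ) i} =
            {c | ∃ i, i < j ∧ c = a i} := by
          ext c
          constructor
          · rintro ⟨i, hi, rfl⟩
            obtain ⟨i', rfl⟩ : ∃ i' : Fin k, i = i'.castSucc :=
              ⟨i.castPred (Fin.ne_of_lt (hi.trans (Fin.castSucc_lt_last j))), by simp⟩
            rw [Fin.snoc_castSucc]
            exact ⟨i', Fin.castSucc_lt_castSucc_iff.mp hi, rfl⟩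
          · rintro ⟨i, hi, rfl⟩
            exact ⟨i.castSucc, Fin.castSucc_lt_castSucc_iff.mpr hi, by rw [Fin.snoc_castSucc]⟩
        rw [this]
        exact h1 j
    · have : Set.range (Fin.snoc a f : Fin (k + 1) → ℂ) = Set.range a ∪ {f} := by
        ext c
        constructor
        · rintro ⟨i, rfl⟩
          refine Fin.lastCases ?_ (fun i => ?_) i
          · rw [Fin.snoc_last]; exact Or.inr rfl
          · rw [Fin.snoc_castSucc]; exact Or.inl ⟨i, rfl⟩
        · rintro (⟨i, rfl⟩ | hc)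
          · exact ⟨i.castSucc, by rw [Fin.snoc_castSucc]⟩
          · rw [Set.mem_singleton_iff] at hc
            exact ⟨Fin.last k, by rw [Fin.snoc_last, hc]⟩
      rw [this, ← Set.union_assoc]
      exact hf'

omit [Algebra ℂ E] in
theorem exists_shift (h : LaurentSeries E) : ∃ r₀ : ℕ, ∀ r, r₀ ≤ r → 0 ≤ vH (sH ^ (2 * r) * h) := by
  by_cases h0 : h = 0
  · refine ⟨0, fun r _ => ?_⟩
    rw [h0, mul_zero, AddValuation.map_zero]
    exact le_top
  · obtain ⟨n, u, hu, hu0, hv⟩ := exists_rep' h0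
    refine ⟨n.natAbs, fun r hr => ?_⟩
    have h1 : (sH : LaurentSeries E) ^ (2 * r) * h = sH ^ ((2 * r : ℕ) + n : ℤ) * co u := by
      rw [zpow_add₀ sH_ne, zpow_natCast, hu]
      ring
    rw [h1, vH_rep _ _ hu0]
    have : (0 : ℤ) ≤ (2 * r : ℕ) + n := by omega
    exact_mod_cast this

omit [Algebra ℂ E] in
theorem exists_shift_fin {k : ℕ} (h : Fin k → LaurentSeries E) :
    ∃ r₀ : ℕ, ∀ r, r₀ ≤ r → ∀ j, 0 ≤ vH (sH ^ (2 * r) * h j) := by
  choose r hr using fun j => exists_shift (h j)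
  refine ⟨∑ j, r j, fun r' hr' j => hr j r' ?_⟩
  exact (Finset.single_le_sum (f := r) (fun _ _ => Nat.zero_le _) (Finset.mem_univ j)).trans hr'

theorem p_rel : S_rel := by
  classical
  intro hacl hsolve E _ _ R hKs eps heps hMf P₀ l S hS e C
  have hcz := Solve.charZero E
  have h2ne : (2 : LaurentSeries E) ≠ 0 := by
    intro h
    have := congrArg (fun q => HahnSeries.coeff q (0 : ℤ)) h
    have h3 : (2 : LaurentSeries E) = HahnSeries.C (2 : E) := by rw [map_ofNat]
    rw [h3] at this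
    simp at this
  -- the terms
  let ι := Unit ⊕ Fin C.n ⊕ Fin C.n
  let k := Fintype.card ι
  let q : ι ≃ Fin k := Fintype.equivFin ι
  let A' : ι → LaurentSeries E := Sum.elim (fun _ => 1 / 2)
    (Sum.elim (fun i => C.Y i / 2) (fun i => C.Y i))
  let B' : ι → LaurentSeries E := Sum.elim (fun _ => 1)
    (Sum.elim (fun i => C.Y i) (fun _ => 1))
  let A : Fin k → LaurentSeries E := fun j => A' (q.symm j)
  let B : Fin k → LaurentSeries E := fun j => B' (q.symm j)
  have hgY : ∀ i, S.g (C.Y i) = C.Y i := fun i => (C.Y_mem i).2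
  have heY : ∀ i, eps (C.Y i) = C.Y i := fun i => (C.Y_mem i).1.1
  have hgA : ∀ j, S.g (A j) = A j := by
    intro j
    rcases h : q.symm j with u | i | i
    · simp only [A, A', h, Sum.elim_inl, map_div₀, map_one, map_ofNat]
    · simp only [A, A', h, Sum.elim_inl, Sum.elim_inr, map_div₀, map_ofNat, hgY]
    · simp only [A, A', h, Sum.elim_inr, hgY]
  have hgB : ∀ j, S.g (B j) = B j := by
    intro j
    rcases h : q.symm j with u | i | i
    · simp only [B, B', h, Sum.elim_inl, map_one]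
    · simp only [B, B', h, Sum.elim_inl, Sum.elim_inr, hgY]
    · simp only [B, B', h, Sum.elim_inr, map_one]
  have heA : ∀ j, eps (A j) = A j := by
    intro j
    rcases h : q.symm j with u | i | i
    · simp only [A, A', h, Sum.elim_inl, map_div₀, map_one, map_ofNat]
    · simp only [A, A', h, Sum.elim_inl, Sum.elim_inr, map_div₀, map_ofNat, heY]
    · simp only [A, A', h, Sum.elim_inr, heY]
  have heB : ∀ j, eps (B j) = B j := by
    intro j
    rcases h : q.symm j with u | i | i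
    · simp only [B, B', h, Sum.elim_inl, map_one]
    · simp only [B, B', h, Sum.elim_inl, Sum.elim_inr, heY]
    · simp only [B, B', h, Sum.elim_inr, map_one]
  obtain ⟨a, f, ha, hf⟩ := exists_gens hacl R S.cnt k
  have hf0 : f ≠ 0 := by
    intro h
    apply hf
    rw [h, map_zero]
    obtain ⟨F, hF⟩ := hacl.field _ (gens R (S.P ∪ Set.range a))
    rw [← hF]
    exact F.zero_mem
  obtain ⟨r₁, hr₁⟩ := exists_shift_fin A
  obtain ⟨r₂, hr₂⟩ := exists_shift_fin B
  obtain ⟨r₃, hr₃⟩ := exists_shift (C.m⁻¹)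
  let r := r₁ + r₂ + r₃
  have hgs : ∀ n : ℕ, S.g (sH ^ n) = sH ^ n := fun n => by rw [map_pow, S.adm.map_s]
  have hes : ∀ n : ℕ, eps (sH ^ (2 * n)) = sH ^ (2 * n) := fun n => by
    rw [map_pow, hKs.eps_s eps heps, pow_mul, neg_sq, ← pow_mul]
  have hgm : S.g C.m = C.m := C.m_mem.2
  have hem : eps C.m = C.m := C.m_mem.1.1
  let s := (sH : LaurentSeries E) ^ (2 * r)
  let c' : Fin (k + 1) → LaurentSeries E := Fin.cons (cH (f / 2)) fun j => cH (-a j)
  let A'' : Fin (k + 1) → LaurentSeries E := Fin.cons (s * C.m⁻¹) fun j => s * A j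
  let B'' : Fin (k + 1) → LaurentSeries E := Fin.cons (s * C.m⁻¹) fun j => s * B j
  have hcH : ∀ c : ℂ, 0 ≤ vH (cH c : LaurentSeries E) ∧ (cH c : LaurentSeries E) ∈ Ks ∧
      eps (cH c) = cH c := by
    intro c
    refine ⟨?_, hKs.c_mem c, hKs.eps_c eps heps c⟩
    have : (cH c : LaurentSeries E) = co (PowerSeries.C (algebraMap ℂ E c)) := by
      rw [co_C]; rfl
    rw [this]
    exact vH_co _
  have h1 : ∀ j, 0 ≤ vH (c' j) ∧ c' j ∈ Ks ∧ eps (c' j) = c' j := by
    intro j
    refine Fin.cases ?_ (fun j => ?_) j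
    · simp only [c', Fin.cons_zero]; exact hcH _
    · simp only [c', Fin.cons_succ]; exact hcH _
  have h2 : ∀ j, 0 ≤ vH (A'' j) ∧ S.g (A'' j) = A'' j ∧ eps (A'' j) = A'' j := by
    intro j
    refine Fin.cases ?_ (fun j => ?_) j
    · simp only [A'', Fin.cons_zero]
      refine ⟨hr₃ r (by omega), ?_, ?_⟩
      · rw [map_mul, hgs, map_inv₀, hgm]
      · rw [map_mul, hes, map_inv₀, hem]
    · simp only [A'', Fin.cons_succ]
      refine ⟨hr₁ r (by omega) j, ?_, ?_⟩
      · rw [map_mul, hgs, hgA]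
      · rw [map_mul, hes, heA]
  have h3 : ∀ j, 0 ≤ vH (B'' j) ∧ S.g (B'' j) = B'' j ∧ eps (B'' j) = B'' j := by
    intro j
    refine Fin.cases ?_ (fun j => ?_) j
    · simp only [B'', Fin.cons_zero]
      refine ⟨hr₃ r (by omega), ?_, ?_⟩
      · rw [map_mul, hgs, map_inv₀, hgm]
      · rw [map_mul, hes, map_inv₀, hem]
    · simp only [B'', Fin.cons_succ]
      refine ⟨hr₂ r (by omega) j, ?_, ?_⟩
      · rw [map_mul, hgs, hgB]
      · rw [map_mul, hes, heB]
  obtain ⟨τ, hτ, hsq, hcomm, heq⟩ := hsolve hacl E R eps heps l S.g S.adm S.comm (zl R S.g l)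
    (le_of_eq hS.z_v.symm) hS.z_g hS.z_eps hS.z_res hS.z_σ (k + 1) c' A'' B'' h1 h2 h3
  have hτs : τ s = s := by
    change τ (sH ^ (2 * r)) = sH ^ (2 * r)
    rw [map_pow, hτ.map_s]
  refine ⟨{ τ := τ, adm := hτ, sq := hsq, comm := hcomm, N := 2 * r + 1, k := k, A := A, B := B,
            a := a, f := f, f_ne := hf0, AB := ?_, AB1 := ?_, AB2 := ?_, AB3 := ?_, gen_a := ha,
            gen_f := hf, rel := ?_ }⟩
  · intro j
    rcases h : q.symm j with u | i | i
    · left
      simp only [A, A', B, B', h, Sum.elim_inl, and_self]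
    · right; left
      refine ⟨i, ?_, ?_⟩ <;> simp only [A, A', B, B', h, Sum.elim_inl, Sum.elim_inr]
    · right; right
      refine ⟨i, ?_, ?_⟩ <;> simp only [A, A', B, B', h, Sum.elim_inr]
  · refine ⟨q (Sum.inl ()), ?_, ?_⟩ <;> simp [A, A', B, B']
  · intro i
    refine ⟨q (Sum.inr (Sum.inl i)), ?_, ?_⟩ <;> simp [A, A', B, B']
  · intro i
    refine ⟨q (Sum.inr (Sum.inr i)), ?_, ?_⟩ <;> simp [A, A', B, B']
  · have hm0 : C.m ≠ 0 := C.m_ne
    have hτm0 : τ C.m ≠ 0 := (map_ne_zero_iff τ τ.injective).mpr hm0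
    have hs0 : s ≠ 0 := pow_ne_zero _ sH_ne
    have hsum : ∑ j, c' j * (A'' j * τ (B'' j) + B'' j * τ (A'' j)) =
        s ^ 2 * (cH f * (C.m⁻¹ * (τ C.m)⁻¹) - ∑ j, cH (a j) * (A j * τ (B j) + B j * τ (A j))) := by
      rw [Fin.sum_univ_succ]
      simp only [c', A'', B'', Fin.cons_zero, Fin.cons_succ, map_mul, hτs, map_inv₀]
      rw [mul_sub, sub_eq_add_neg, Finset.mul_sum, ← Finset.sum_neg_distrib]
      congr 1
      · have : (cH (f / 2) : LaurentSeries E) = cH f / 2 := by
          rw [map_div₀, map_ofNat]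
        rw [this]
        field_simp
        ring
      · refine Finset.sum_congr rfl fun j _ => ?_
        rw [map_neg]
        ring
    rw [hsum] at heq
    have h5 : (sH : LaurentSeries E) ^ (2 * (2 * r + 1)) = sH ^ 2 * s ^ 2 := by
      simp only [s]
      rw [← pow_mul, ← pow_add]
      congr 1
      ring
    rw [heq, h5]
    have hs2 : (sH : LaurentSeries E) ≠ 0 := sH_ne
    have h6 : ((sH : LaurentSeries E) ^ 2 * s ^ 2)⁻¹ * (sH ^ 2 * (s ^ 2 *
        (cH f * (C.m⁻¹ * (τ C.m)⁻¹) - ∑ j, cH (a j) * (A j * τ (B j) + B j * τ (A j))))) =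
        cH f * (C.m⁻¹ * (τ C.m)⁻¹) - ∑ j, cH (a j) * (A j * τ (B j) + B j * τ (A j)) := by
      rw [← mul_assoc (sH ^ 2), ← mul_assoc, inv_mul_cancel₀, one_mul]
      exact mul_ne_zero (pow_ne_zero _ hs2) (pow_ne_zero _ hs0)
    rw [h6, sub_add_cancel]
    field_simp

end Pool.Agent.Run7.h378
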