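import Pool.Agent.Run7.h378.IfaceF

/-!
Taylor automorphisms of a power series ring attached to a derivation.
-/

noncomputable section

namespace Pool.Agent.Run7.h378.Solve

open Finset PowerSeries

variable {E : Type} [Field E] [CharZero E]

/-- derivation-like additive maps -/
structure IsDv (d : E⟦X⟧ →+ E⟦X⟧) : Prop where
  leib : ∀ a b, d (a * b) = a * d b + b * d a
  X : d X = 0

namespace IsDv

variable {d : E⟦X⟧ →+ E⟦X⟧} (hd : IsDv d)

include hd

omit [CharZero E] in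
theorem one : d 1 = 0 := by
  have h := hd.leib 1 1
  simp only [mul_one, one_mul] at h
  have : d 1 + 0 = d 1 + d 1 := by rw [add_zero]; exact h
  exact (add_left_cancel this).symm

omit [CharZero E] in
theorem iter_leib (n : ℕ) (r s : E⟦X⟧) :
    d^[n] (r * s) = ∑ ij ∈ antidiagonal n, ((n.choose ij.1 : ℕ) : E⟦X⟧) *
      (d^[ij.1] r * d^[ij.2] s) := by
  induction n with
  | zero => simp
  | succ n ih =>
    rw [Function.iterate_succ_apply', ih, map_sum,
      Finset.sum_antidiagonal_choose_succ_mul (fun i j => d^[i] r * d^[j] s),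
      ← Finset.sum_add_distrib]
    refine Finset.sum_congr rfl fun ij hij => ?_
    have h1 : n.choose ij.2 = n.choose ij.1 := by
      rw [HasAntidiagonal.mem_antidiagonal] at hij
      rw [← hij, Nat.choose_symm_add]
    have h2 : d (((n.choose ij.1 : ℕ) : E⟦X⟧) * (d^[ij.1] r * d^[ij.2] s)) =
        ((n.choose ij.1 : ℕ) : E⟦X⟧) * d (d^[ij.1] r * d^[ij.2] s) := by
      rw [← nsmul_eq_mul, map_nsmul, nsmul_eq_mul]
    rw [h2, hd.leib, h1, ← Function.iterate_succ_apply' d, ← Function.iterate_succ_apply' d]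
    ring

end IsDv

/-- divided powers of the derivation -/
def ee (d : E⟦X⟧ →+ E⟦X⟧) (n : ℕ) (r : E⟦X⟧) : E⟦X⟧ := C ((n.factorial : E)⁻¹) * d^[n] r

theorem ee_mul {d : E⟦X⟧ →+ E⟦X⟧} (hd : IsDv d) (n : ℕ) (r s : E⟦X⟧) :
    ee d n (r * s) = ∑ ij ∈ antidiagonal n, ee d ij.1 r * ee d ij.2 s := by
  rw [ee, hd.iter_leib, Finset.mul_sum]
  refine Finset.sum_congr rfl fun ij hij => ?_
  rw [HasAntidiagonal.mem_antidiagonal] at hij
  have h1 : ((n.factorial : E)⁻¹) * ((n.choose ij.1 : ℕ) : E) =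
      ((ij.1.factorial : E)⁻¹) * ((ij.2.factorial : E)⁻¹) := by
    have h2 : n.choose ij.1 * ij.1.factorial * ij.2.factorial = n.factorial := by
      rw [← hij, Nat.choose_symm_add]
      exact Nat.add_choose_mul_factorial_mul_factorial ij.1 ij.2
    have h3 : (n.factorial : E) = (n.choose ij.1 : E) * ij.1.factorial * ij.2.factorial := by
      rw [← h2]; push_cast; ring
    have ha : (n.factorial : E) ≠ 0 := by exact_mod_cast Nat.factorial_ne_zero n
    have hb : (ij.1.factorial : E) ≠ 0 := by exact_mod_cast Nat.factorial_ne_zero _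
    have hc : (ij.2.factorial : E) ≠ 0 := by exact_mod_cast Nat.factorial_ne_zero _
    field_simp
    rw [h3]
  have h4 : ((n.choose ij.1 : ℕ) : E⟦X⟧) = C ((n.choose ij.1 : ℕ) : E) := by
    rw [map_natCast]
  rw [h4, ← mul_assoc, ← map_mul, h1, map_mul]
  simp only [ee]
  ring

/-- truncated Taylor sum -/
def TT (d : E⟦X⟧ →+ E⟦X⟧) (δ : E⟦X⟧) (N : ℕ) (r : E⟦X⟧) : E⟦X⟧ :=
  ∑ n ∈ range N, δ ^ n * ee d n r

omit [CharZero E] in
theorem TT_succ (d : E⟦X⟧ →+ E⟦X⟧) (δ : E⟦X⟧) (N : ℕ) (r : E⟦X⟧) :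
    TT d δ (N + 1) r = TT d δ N r + δ ^ N * ee d N r := by
  simp [TT, Finset.sum_range_succ]

omit [CharZero E] in
theorem TT_dvd {d : E⟦X⟧ →+ E⟦X⟧} {δ : E⟦X⟧} (hδ : X ∣ δ) (N M : ℕ) (h : N ≤ M) (r : E⟦X⟧) :
    X ^ N ∣ TT d δ M r - TT d δ N r := by
  induction M, h using Nat.le_induction with
  | base => simp
  | succ M hM ih =>
    rw [TT_succ, add_sub_right_comm]
    refine dvd_add ih (Dvd.dvd.mul_right ?_ _)
    exact (pow_dvd_pow _ hM).trans (pow_dvd_pow_of_dvd hδ M)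

theorem TT_mul {d : E⟦X⟧ →+ E⟦X⟧} (hd : IsDv d) {δ : E⟦X⟧} (hδ : X ∣ δ) (N : ℕ)
    (r s : E⟦X⟧) : X ^ N ∣ TT d δ N r * TT d δ N s - TT d δ N (r * s) := by
  classical
  let P : E⟦X⟧ → Polynomial E⟦X⟧ := fun r => ∑ n ∈ range N, Polynomial.monomial n (ee d n r)
  have hP : ∀ r n, (P r).coeff n = if n < N then ee d n r else 0 := by
    intro r n
    simp only [P, Polynomial.finsetSum_coeff, Polynomial.coeff_monomial]
    by_cases h : n < N
    · rw [if_pos h, Finset.sum_eq_single n]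
      · simp
      · intro b _ hb; simp [hb]
      · intro hn; exact absurd (Finset.mem_range.mpr h) hn
    · rw [if_neg h]
      refine Finset.sum_eq_zero fun b hb => ?_
      rw [if_neg]
      rintro rfl
      exact h (Finset.mem_range.mp hb)
  have hev : ∀ r, (P r).eval δ = TT d δ N r := by
    intro r
    simp only [P, Polynomial.eval_finsetSum, Polynomial.eval_monomial, TT]
    exact Finset.sum_congr rfl fun n _ => mul_comm _ _
  have h1 : (Polynomial.X : Polynomial E⟦X⟧) ^ N ∣ P r * P s - P (r * s) := by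
    rw [Polynomial.X_pow_dvd_iff]
    intro n hn
    rw [Polynomial.coeff_sub, Polynomial.coeff_mul, hP, if_pos hn, ee_mul hd, sub_eq_zero]
    refine Finset.sum_congr rfl fun ij hij => ?_
    rw [HasAntidiagonal.mem_antidiagonal] at hij
    rw [hP, hP, if_pos (by omega), if_pos (by omega)]
  obtain ⟨Q, hQ⟩ := h1
  have h2 := congrArg (Polynomial.eval δ) hQ
  rw [Polynomial.eval_sub, Polynomial.eval_mul, Polynomial.eval_mul, Polynomial.eval_pow,
    Polynomial.eval_X, hev, hev, hev] at h2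
  rw [h2]
  exact Dvd.dvd.mul_right (pow_dvd_pow_of_dvd hδ N) _

omit [CharZero E] in
theorem eq_of_dvd {a b : E⟦X⟧} (h : ∀ n : ℕ, X ^ n ∣ a - b) : a = b := by
  ext n
  have := (X_pow_dvd_iff.mp (h (n + 1))) n (Nat.lt_succ_self n)
  rw [map_sub, sub_eq_zero] at this
  exact this

/-- limit of the truncated sums -/
def Ex (d : E⟦X⟧ →+ E⟦X⟧) (δ : E⟦X⟧) (r : E⟦X⟧) : E⟦X⟧ :=
  PowerSeries.mk fun j => coeff j (TT d δ (j + 1) r)

omit [CharZero E] in
theorem Ex_dvd {d : E⟦X⟧ →+ E⟦X⟧} {δ : E⟦X⟧} (hδ : X ∣ δ) (N : ℕ) (r : E⟦X⟧) :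
    X ^ N ∣ Ex d δ r - TT d δ N r := by
  rw [X_pow_dvd_iff]
  intro m hm
  rw [map_sub, Ex, coeff_mk, sub_eq_zero]
  have h := (X_pow_dvd_iff.mp (TT_dvd (d := d) hδ (m + 1) N hm r)) m (Nat.lt_succ_self m)
  rw [map_sub, sub_eq_zero] at h
  exact h.symm

omit [CharZero E] in
theorem TT_add {d : E⟦X⟧ →+ E⟦X⟧} {δ : E⟦X⟧} (N : ℕ) (r s : E⟦X⟧) :
    TT d δ N (r + s) = TT d δ N r + TT d δ N s := by
  simp only [TT, ← Finset.sum_add_distrib]
  refine Finset.sum_congr rfl fun n _ => ?_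
  have : d^[n] (r + s) = d^[n] r + d^[n] s := iterate_map_add d n r s
  rw [ee, this, ee, ee]; ring

omit [CharZero E] in
theorem iter_eq_zero {d : E⟦X⟧ →+ E⟦X⟧} {r : E⟦X⟧} (h : d r = 0) {n : ℕ} (hn : n ≠ 0) :
    d^[n] r = 0 := by
  obtain ⟨m, rfl⟩ := Nat.exists_eq_succ_of_ne_zero hn
  rw [Function.iterate_succ_apply, h]
  induction m with
  | zero => rfl
  | succ m ih =>
    rw [Function.iterate_succ_apply, map_zero]; exact ih (by omega)

omit [CharZero E] in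
theorem Ex_of_zero {d : E⟦X⟧ →+ E⟦X⟧} {δ : E⟦X⟧} (hδ : X ∣ δ) {r : E⟦X⟧} (h : d r = 0) :
    Ex d δ r = r := by
  refine eq_of_dvd fun n => ?_
  have h1 : TT d δ (n + 1) r = r := by
    rw [TT, Finset.sum_range_succ']
    rw [Finset.sum_eq_zero]
    · simp [ee]
    · intro k _
      rw [ee, iter_eq_zero h (Nat.succ_ne_zero k)]; simp
  have h2 := Ex_dvd (d := d) hδ (n + 1) r
  rw [h1] at h2
  exact (pow_dvd_pow _ (Nat.le_succ n)).trans h2

/-- the Taylor endomorphism -/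
def ExHom {d : E⟦X⟧ →+ E⟦X⟧} (hd : IsDv d) {δ : E⟦X⟧} (hδ : X ∣ δ) : E⟦X⟧ →+* E⟦X⟧ where
  toFun := Ex d δ
  map_one' := Ex_of_zero hδ hd.one
  map_mul' := fun r s => by
    refine eq_of_dvd fun n => ?_
    have h1 := Ex_dvd (d := d) hδ n (r * s)
    have h2 := Ex_dvd (d := d) hδ n r
    have h3 := Ex_dvd (d := d) hδ n s
    have h4 := TT_mul hd hδ n r s
    have : Ex d δ (r * s) - Ex d δ r * Ex d δ s =
        (Ex d δ (r * s) - TT d δ n (r * s)) - (TT d δ n r * TT d δ n s - TT d δ n (r * s))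
        - (Ex d δ r - TT d δ n r) * Ex d δ s - TT d δ n r * (Ex d δ s - TT d δ n s) := by ring
    rw [this]
    exact dvd_sub (dvd_sub (dvd_sub h1 h4) (Dvd.dvd.mul_right h2 _)) (Dvd.dvd.mul_left h3 _)
  map_zero' := by
    refine Ex_of_zero hδ (map_zero d)
  map_add' := fun r s => by
    refine eq_of_dvd fun n => ?_
    have h1 := Ex_dvd (d := d) hδ n (r + s)
    have h2 := Ex_dvd (d := d) hδ n r
    have h3 := Ex_dvd (d := d) hδ n s
    rw [TT_add] at h1
    have : Ex d δ (r + s) - (Ex d δ r + Ex d δ s) =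
        (Ex d δ (r + s) - (TT d δ n r + TT d δ n s))
        - (Ex d δ r - TT d δ n r) - (Ex d δ s - TT d δ n s) := by ring
    rw [this]
    exact dvd_sub (dvd_sub h1 h2) h3

theorem ExHom_apply {d : E⟦X⟧ →+ E⟦X⟧} (hd : IsDv d) {δ : E⟦X⟧} (hδ : X ∣ δ) (r : E⟦X⟧) :
    ExHom hd hδ r = Ex d δ r := rfl

omit [CharZero E] in
theorem Ex_shift {d : E⟦X⟧ →+ E⟦X⟧} (hd : IsDv d) {δ : E⟦X⟧} (hδ : X ∣ δ) {w : E⟦X⟧}
    (hw : d w = 1) : Ex d δ w = w + δ := by
  refine eq_of_dvd fun n => ?_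
  have h1 : TT d δ (n + 2) w = w + δ := by
    rw [TT, Finset.sum_range_succ', Finset.sum_range_succ']
    rw [Finset.sum_eq_zero]
    · simp [ee, hw]; ring
    · intro k _
      have : d^[k + 1 + 1] w = 0 := by
        rw [Function.iterate_succ_apply, hw]
        exact iter_eq_zero hd.one (Nat.succ_ne_zero k)
      rw [ee, this]; simp
  have h2 := Ex_dvd (d := d) hδ (n + 2) w
  rw [h1] at h2
  exact (pow_dvd_pow _ (by omega)).trans h2

omit [CharZero E] in
theorem Ex_const {d : E⟦X⟧ →+ E⟦X⟧} {δ : E⟦X⟧} (hδ : X ∣ δ) (r : E⟦X⟧) :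
    constantCoeff (Ex d δ r) = constantCoeff r := by
  have h := Ex_dvd (d := d) hδ 1 r
  rw [pow_one, X_dvd_iff, map_sub, sub_eq_zero] at h
  rw [h]
  simp [TT, ee]

omit [CharZero E] in
theorem Ex_lip {d : E⟦X⟧ →+ E⟦X⟧} {δ δ' : E⟦X⟧} (hδ : X ∣ δ) (hδ' : X ∣ δ') (n : ℕ)
    (h : X ^ n ∣ δ - δ') (r : E⟦X⟧) : X ^ n ∣ Ex d δ r - Ex d δ' r := by
  have h1 := Ex_dvd (d := d) hδ n r
  have h2 := Ex_dvd (d := d) hδ' n r
  have h3 : X ^ n ∣ TT d δ n r - TT d δ' n r := by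
    rw [TT, TT, ← Finset.sum_sub_distrib]
    refine Finset.dvd_sum fun k _ => ?_
    rw [← sub_mul]
    exact Dvd.dvd.mul_right (h.trans (sub_dvd_pow_sub_pow δ δ' k)) _
  have : Ex d δ r - Ex d δ' r = (Ex d δ r - TT d δ n r) - (Ex d δ' r - TT d δ' n r)
      + (TT d δ n r - TT d δ' n r) := by ring
  rw [this]
  exact dvd_add (dvd_sub h1 h2) h3

end Pool.Agent.Run7.h378.Solve
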