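import Pool.Agent.Run7.h378.Solve1

/-!
Derivations of the residue field, uniqueness of admissible endomorphisms.
-/

noncomputable section

namespace Pool.Agent.Run7.h378.Solve

open Finset PowerSeries

variable {E : Type} [Field E] [Algebra ℂ E]

/-- derivation along a ring homomorphism -/
structure IsRd (φ : E →+* E) (δ : E → E) : Prop where
  add : ∀ a b, δ (a + b) = δ a + δ b
  leib : ∀ a b, δ (a * b) = φ a * δ b + φ b * δ a
  c : ∀ c : ℂ, δ (algebraMap ℂ E c) = 0

namespace IsRd

variable {φ : E →+* E} {δ : E → E} (h : IsRd φ δ)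

include h

theorem zero : δ 0 = 0 := by
  have := h.c 0
  rwa [map_zero] at this

theorem one : δ 1 = 0 := by
  have := h.c 1
  rwa [map_one] at this

theorem neg (a : E) : δ (-a) = -δ a := by
  have := h.add a (-a)
  rw [add_neg_cancel, h.zero] at this
  exact (neg_eq_of_add_eq_zero_right this.symm).symm

theorem sum {ι : Type} (s : Finset ι) (f : ι → E) : δ (∑ i ∈ s, f i) = ∑ i ∈ s, δ (f i) := by
  classical
  induction s using Finset.induction_on with
  | empty => simp [h.zero]
  | insert a s ha ih => rw [Finset.sum_insert ha, Finset.sum_insert ha, h.add, ih]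

theorem inv {a : E} (ha : δ a = 0) : δ a⁻¹ = 0 := by
  by_cases h0 : a = 0
  · rw [h0, inv_zero, h.zero]
  · have := h.leib a a⁻¹
    rw [mul_inv_cancel₀ h0, h.one, ha, mul_zero, add_zero] at this
    rcases mul_eq_zero.mp this.symm with h1 | h1
    · exact absurd ((map_eq_zero φ).mp h1) h0
    · exact h1

/-- kernel as a subfield -/
def ker : Subfield E where
  carrier := {a | δ a = 0}
  mul_mem' := fun {a b} ha hb => by
    simp only [Set.mem_ofPred_eq] at *
    rw [h.leib, ha, hb]; ring
  one_mem' := h.one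
  add_mem' := fun {a b} ha hb => by
    simp only [Set.mem_ofPred_eq] at *
    rw [h.add, ha, hb]; ring
  zero_mem' := h.zero
  neg_mem' := fun {a} ha => by
    simp only [Set.mem_ofPred_eq] at *
    rw [h.neg, ha, neg_zero]
  inv_mem' := fun a ha => h.inv ha

theorem pow (a : E) (n : ℕ) : δ (a ^ n) = n * φ a ^ (n - 1) * δ a := by
  induction n with
  | zero => simp [h.one]
  | succ n ih =>
    rw [pow_succ, h.leib, ih]
    rcases n with _ | n
    · simp
    · rw [map_pow]
      simp only [Nat.add_sub_cancel]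
      push_cast
      ring

/-- the kernel is algebraically closed -/
theorem alg [CharZero E] {S : Set E} (hS : ∀ a ∈ S, δ a = 0) {y : E} (hy : y ∈ acl S) :
    δ y = 0 := by
  let F : Subfield E := Subfield.closure S
  have hF : ∀ a : F, δ (a : E) = 0 := by
    intro a
    have : F ≤ h.ker := Subfield.closure_le.mpr fun a ha => hS a ha
    exact this a.2
  have hy' : IsAlgebraic F y := hy
  have hint : IsIntegral F y := hy'.isIntegral
  let p := minpoly F y
  have h1 : Polynomial.aeval y p = 0 := minpoly.aeval F y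
  have h2 : Polynomial.aeval y (Polynomial.derivative p) ≠ 0 :=
    (minpoly.irreducible hint).separable.aeval_derivative_ne_zero h1
  have h3 : ∀ q : Polynomial F, δ (Polynomial.aeval y q) =
      φ (Polynomial.aeval y (Polynomial.derivative q)) * δ y := by
    intro q
    induction q using Polynomial.induction_on' with
    | add P Q hP hQ =>
      rw [map_add, h.add, hP, hQ, Polynomial.derivative_add, map_add, map_add]; ring
    | monomial n c =>
      rw [Polynomial.aeval_monomial, h.leib, h.pow, Polynomial.derivative_monomial,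
        Polynomial.aeval_monomial]
      have : δ (algebraMap F E c) = 0 := hF c
      rw [this]
      simp only [map_mul, map_pow, map_natCast]
      ring
  have h4 := h3 p
  rw [h1, h.zero] at h4
  rcases mul_eq_zero.mp h4.symm with h5 | h5
  · exact absurd ((map_eq_zero φ).mp h5) h2
  · exact h5

end IsRd

theorem charZero (E : Type) [Field E] [Algebra ℂ E] : CharZero E :=
  charZero_of_injective_algebraMap (algebraMap ℂ E).injective

theorem alg_of_range {k E : Type} [Field k] [Field E] [Algebra k E] {F : Subfield E}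
    (h2 : F ≤ (algebraMap k E).fieldRange) {e : E} (h1 : IsAlgebraic F e) : IsAlgebraic k e := by
  classical
  obtain ⟨p, hp0, hp⟩ := h1
  have h3 : ∀ c : F, ∃ a : k, algebraMap k E a = (c : E) := fun c => h2 c.2
  choose g hg using h3
  have hg0 : ∀ c, g c = 0 ↔ c = 0 := by
    intro c
    constructor
    · intro hc
      have := hg c
      rw [hc, map_zero] at this
      exact Subtype.ext this.symm
    · rintro rfl
      have := hg 0
      exact (map_eq_zero (algebraMap k E)).mp this
  refine ⟨∑ i ∈ range (p.natDegree + 1), Polynomial.monomial i (g (p.coeff i)), ?_, ?_⟩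
  · intro h
    have h4 := congrArg (fun q => Polynomial.coeff q p.natDegree) h
    simp only [Polynomial.finsetSum_coeff, Polynomial.coeff_monomial, Polynomial.coeff_zero] at h4
    rw [Finset.sum_eq_single p.natDegree] at h4
    · rw [if_pos rfl, hg0] at h4
      exact hp0 (Polynomial.leadingCoeff_eq_zero.mp h4)
    · intro b _ hb; rw [if_neg hb]
    · intro hn; exact absurd (Finset.mem_range.mpr (Nat.lt_succ_self _)) hn
  · rw [map_sum]
    rw [Polynomial.aeval_eq_sum_range] at hp
    rw [← hp]
    refine Finset.sum_congr rfl fun i _ => ?_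
    rw [Polynomial.aeval_monomial, Algebra.smul_def]
    congr 1
    exact hg _

/-- derivation with `∂ x = 1` -/
theorem exists_der (R : Res E) : ∃ D : E → E, IsRd (RingHom.id E) D ∧ D R.x = 1 := by
  classical
  have hcz := charZero E
  -- x is transcendental over ℂ
  have hx : Transcendental ℂ R.x := by
    intro hx
    apply R.x_tr
    have h1 : IsIntegral ℂ R.x := hx.isIntegral
    have h2 := IsAlgClosed.degree_eq_one_of_irreducible ℂ (minpoly.irreducible h1)
    have h3 := minpoly.mem_range_of_degree_eq_one ℂ R.x h2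
    exact h3
  let A := Polynomial ℂ
  let f : A →ₐ[ℂ] E := Polynomial.aeval R.x
  have hf : Function.Injective f := transcendental_iff_injective.mp hx
  let K := FractionRing A
  let φ : K →ₐ[ℂ] E := IsFractionRing.liftAlgHom (K := K) (g := f) hf
  let _ : Algebra K E := φ.toRingHom.toAlgebra
  have : IsScalarTower ℂ K E := IsScalarTower.of_algebraMap_eq fun c => by
    change _ = φ (algebraMap ℂ K c)
    rw [AlgHom.commutes]
  let _ : Algebra A E := f.toRingHom.toAlgebra
  have : IsScalarTower A K E := IsScalarTower.of_algebraMap_eq fun a => by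
    change f a = φ (algebraMap A K a)
    exact (IsFractionRing.lift_algebraMap hf a).symm
  have hAC : IsScalarTower ℂ A E := IsScalarTower.of_algebraMap_eq fun c => by
    change _ = f (algebraMap ℂ A c)
    rw [AlgHom.commutes]
  have : Algebra.IsAlgebraic K E := by
    refine ⟨fun e => ?_⟩
    have h1 : IsAlgebraic (Subfield.closure (Set.range (algebraMap ℂ E) ∪ {R.x})) e := R.alg e
    have h2 : Subfield.closure (Set.range (algebraMap ℂ E) ∪ {R.x}) ≤
        (algebraMap K E).fieldRange := by
      rw [Subfield.closure_le]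
      rintro y (⟨c, rfl⟩ | hy)
      · exact ⟨algebraMap ℂ K c, by change φ _ = _; rw [AlgHom.commutes]⟩
      · rw [Set.mem_singleton_iff] at hy
        refine ⟨algebraMap A K Polynomial.X, ?_⟩
        change φ _ = _
        have : φ (algebraMap A K Polynomial.X) = f Polynomial.X :=
          IsFractionRing.lift_algebraMap hf _
        rw [this, hy]
        exact Polynomial.aeval_X R.x
    exact alg_of_range h2 h1
  have hKE : Algebra.FormallyEtale K E := Algebra.FormallyEtale.of_isSeparable K E
  have hAK : Algebra.FormallyEtale A K :=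
    Algebra.FormallyEtale.of_isLocalization (nonZeroDivisors A)
  have hAE : Algebra.FormallyEtale A E := Algebra.FormallyEtale.comp A K E
  let e := KaehlerDifferential.tensorKaehlerEquivOfFormallyEtale ℂ A E
  let DA : Derivation ℂ A A := Polynomial.derivative'
  let l : Ω[A⁄ℂ] →ₗ[A] E := (Algebra.linearMap A E).comp DA.liftKaehlerDifferential
  let ψ : Ω[E⁄ℂ] →ₗ[E] E := (LinearMap.liftBaseChange E l).comp e.symm.toLinearMap
  let D : Derivation ℂ E E := ψ.compDer (KaehlerDifferential.D ℂ E)
  refine ⟨D, ⟨fun a b => map_add D a b, fun a b => ?_, fun c => D.map_algebraMap c⟩, ?_⟩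
  · rw [D.leibniz]; simp [smul_eq_mul]
  · have hX : R.x = algebraMap A E Polynomial.X := (Polynomial.aeval_X R.x).symm
    rw [hX]
    change (LinearMap.liftBaseChange E l) (e.symm (KaehlerDifferential.D ℂ E (algebraMap A E _))) = _
    rw [KaehlerDifferential.tensorKaehlerEquivOfFormallyEtale_symm_D_algebraMap,
      LinearMap.liftBaseChange_tmul, one_smul]
    have : DA Polynomial.X = 1 := Polynomial.derivative_X
    change algebraMap A E (DA.liftKaehlerDifferential (KaehlerDifferential.D ℂ A _)) = 1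
    rw [Derivation.liftKaehlerDifferential_comp_D, this, map_one]

/-- an element killed by all of `ℂ` and `x` is zero -/
theorem rd_zero (R : Res E) {φ : E →+* E} {δ : E → E} (h : IsRd φ δ) (hx : δ R.x = 0) (e : E) :
    δ e = 0 := by
  have hcz := charZero E
  refine h.alg (S := Set.range (algebraMap ℂ E) ∪ {R.x}) ?_ (R.alg e)
  rintro a (⟨c, rfl⟩ | ha)
  · exact h.c c
  · rw [Set.mem_singleton_iff] at ha; rw [ha]; exact hx

theorem acl_range (hacl : AclFacts) {y : E}
    (hy : y ∈ acl (Set.range (algebraMap ℂ E))) : y ∈ Set.range (algebraMap ℂ E) := by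
  have h1 : (((algebraMap ℂ E).fieldRange : Subfield E) : Set E) = Set.range (algebraMap ℂ E) :=
    RingHom.coe_fieldRange _
  rw [← h1, hacl.poly] at hy
  obtain ⟨p, hp0, hp⟩ := hy
  have h3 : IsAlgebraic ℂ y := alg_of_range le_rfl ⟨p, hp0, hp⟩
  have h4 : IsIntegral ℂ y := h3.isIntegral
  have h5 := IsAlgClosed.degree_eq_one_of_irreducible ℂ (minpoly.irreducible h4)
  exact minpoly.mem_range_of_degree_eq_one ℂ y h5

/-- the derivation does not kill elements outside `ℂ` -/
theorem der_ne (hacl : AclFacts) (R : Res E) {D : E → E} (hD : IsRd (RingHom.id E) D)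
    (hx : D R.x = 1) {z : E} (hz : z ∉ Set.range (algebraMap ℂ E)) : D z ≠ 0 := by
  have hcz := charZero E
  intro h0
  have h1 : R.x ∈ acl (Set.range (algebraMap ℂ E) ∪ {z}) := by
    apply hacl.exch E _ R.x z (R.alg z)
    intro h
    exact hz (acl_range hacl h)
  have h2 : D R.x = 0 := by
    refine hD.alg ?_ h1
    rintro a (⟨c, rfl⟩ | ha)
    · exact hD.c c
    · rw [Set.mem_singleton_iff] at ha; rw [ha]; exact h0
  rw [hx] at h2
  exact one_ne_zero h2

/-- a `φ`-derivation killing an element outside `ℂ` is zero -/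
theorem rd_zero' (hacl : AclFacts) (R : Res E) {φ : E →+* E} {δ : E → E} (h : IsRd φ δ) {z : E}
    (hz : z ∉ Set.range (algebraMap ℂ E)) (hδ : δ z = 0) (e : E) : δ e = 0 := by
  have hcz := charZero E
  refine h.alg (S := Set.range (algebraMap ℂ E) ∪ {z}) ?_ ?_
  · rintro a (⟨c, rfl⟩ | ha)
    · exact h.c c
    · rw [Set.mem_singleton_iff] at ha; rw [ha]; exact hδ
  · have h1 : R.x ∈ acl (Set.range (algebraMap ℂ E) ∪ {z}) := by
      apply hacl.exch E _ R.x z (R.alg z)
      intro h
      exact hz (acl_range hacl h)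
    have h2 : Set.range (algebraMap ℂ E) ∪ {R.x} ⊆
        acl (Set.range (algebraMap ℂ E) ∪ {z}) := by
      rintro a (ha | ha)
      · exact hacl.sub _ _ (Or.inl ha)
      · rw [Set.mem_singleton_iff] at ha; rw [ha]; exact h1
    exact hacl.idem _ _ (hacl.mono _ _ _ h2 (R.alg e))

/-- admissible endomorphism of `E[[s]]` with residual action `ρ` -/
structure AE (ρ : E →+* E) (φ : E⟦X⟧ →+* E⟦X⟧) : Prop where
  X : φ X = X
  c : ∀ c : ℂ, φ (C (algebraMap ℂ E c)) = C (algebraMap ℂ E c)
  r : ∀ r, constantCoeff (φ r) = ρ (constantCoeff r)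

theorem AE.dvd {ρ : E →+* E} {φ : E⟦X⟧ →+* E⟦X⟧} (h : AE ρ φ) {n : ℕ} {a b : E⟦X⟧}
    (hab : PowerSeries.X ^ n ∣ a - b) : PowerSeries.X ^ n ∣ φ a - φ b := by
  obtain ⟨q, hq⟩ := hab
  rw [← map_sub, hq, map_mul, map_pow, h.X]
  exact Dvd.intro _ rfl

/-- step of the uniqueness proof -/
theorem ustep (hacl : AclFacts) (R : Res E) {ρ : E →+* E} (_hρ : ∀ c : ℂ,
    ρ (algebraMap ℂ E c) = algebraMap ℂ E c)
    {φ ψ : E⟦X⟧ →+* E⟦X⟧} (hφ : AE ρ φ)
    (hψ : AE ρ ψ) {z : E⟦X⟧} (hz : constantCoeff z ∉ Set.range (algebraMap ℂ E)) {n : ℕ}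
    (hn : n ≠ 0) (h : ∀ r, PowerSeries.X ^ n ∣ φ r - ψ r)
    (hz' : PowerSeries.X ^ (n + 1) ∣ φ z - ψ z) (r : E⟦X⟧) :
    PowerSeries.X ^ (n + 1) ∣ φ r - ψ r := by
  let δ : E → E := fun e => coeff n (φ (C e) - ψ (C e))
  have h0 : ∀ r m, m < n → coeff m (φ r - ψ r) = 0 := fun r m hm => X_pow_dvd_iff.mp (h r) m hm
  have hδ : IsRd ρ δ := by
    refine ⟨fun a b => ?_, fun a b => ?_, fun c => ?_⟩
    · simp only [δ]
      rw [← map_add (coeff n)]
      congr 1
      rw [map_add (C : E →+* E⟦X⟧), map_add φ, map_add ψ]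
      ring
    · simp only [δ]
      have e1 : φ (C (a * b)) - ψ (C (a * b)) =
          φ (C a) * (φ (C b) - ψ (C b)) + ψ (C b) * (φ (C a) - ψ (C a)) := by
        rw [map_mul, map_mul, map_mul]; ring
      obtain ⟨q1, hq1⟩ := h (C a)
      obtain ⟨q2, hq2⟩ := h (C b)
      have key : ∀ u q : E⟦X⟧, coeff n (u * (PowerSeries.X ^ n * q)) =
          constantCoeff u * constantCoeff q := by
        intro u q
        have : u * (PowerSeries.X ^ n * q) = PowerSeries.X ^ n * (u * q) := by ring
        rw [this]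
        have h2 := coeff_X_pow_mul (u * q) n 0
        rw [zero_add] at h2
        rw [h2, coeff_zero_eq_constantCoeff_apply, map_mul]
      have key2 : ∀ q : E⟦X⟧, coeff n (PowerSeries.X ^ n * q) = constantCoeff q := by
        intro q
        have := key 1 q
        simpa using this
      rw [e1, hq1, hq2, map_add, key, key, key2, key2, hφ.r, hψ.r]
      simp
    · simp only [δ, hφ.c, hψ.c, sub_self, map_zero]
  have hCz : ∀ r : E⟦X⟧, coeff n (φ r - ψ r) = δ (constantCoeff r) := by
    intro r
    have h1 : PowerSeries.X ∣ r - C (constantCoeff r) := by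
      rw [X_dvd_iff]; simp
    obtain ⟨q, hq⟩ := h1
    have h2 : r = C (constantCoeff r) + PowerSeries.X * q := by rw [← hq]; ring
    have h3 : φ r - ψ r = (φ (C (constantCoeff r)) - ψ (C (constantCoeff r))) +
        PowerSeries.X * (φ q - ψ q) := by
      conv_lhs => rw [h2]
      rw [map_add, map_add, map_mul, map_mul, hφ.X, hψ.X]; ring
    rw [h3, map_add]
    have h4 : coeff n (PowerSeries.X * (φ q - ψ q)) = 0 := by
      obtain ⟨m, rfl⟩ := Nat.exists_eq_succ_of_ne_zero hn
      rw [coeff_succ_X_mul]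
      exact h0 q m (Nat.lt_succ_self m)
    rw [h4, add_zero]
  have hδz : δ (constantCoeff z) = 0 := by
    rw [← hCz z]
    exact X_pow_dvd_iff.mp hz' n (Nat.lt_succ_self n)
  rw [X_pow_dvd_iff]
  intro m hm
  rcases Nat.lt_succ_iff_lt_or_eq.mp hm with h1 | h1
  · exact h0 r m h1
  · rw [h1, hCz, rd_zero' hacl R hδ hz hδz]

/-- uniqueness -/
theorem uniq (hacl : AclFacts) (R : Res E) {ρ : E →+* E} (hρ : ∀ c : ℂ,
    ρ (algebraMap ℂ E c) = algebraMap ℂ E c)
    {φ ψ : E⟦X⟧ →+* E⟦X⟧} (hφ : AE ρ φ)
    (hψ : AE ρ ψ) {z : E⟦X⟧} (hz : constantCoeff z ∉ Set.range (algebraMap ℂ E))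
    (h : ∀ n, n ≠ 0 → (∀ r, PowerSeries.X ^ n ∣ φ r - ψ r) → PowerSeries.X ^ (n + 1) ∣ φ z - ψ z) :
    φ = ψ := by
  have h1 : ∀ n, ∀ r, PowerSeries.X ^ n ∣ φ r - ψ r := by
    intro n
    induction n with
    | zero => intro r; simp
    | succ n ih =>
      rcases Nat.eq_zero_or_pos n with hn | hn
      · subst hn
        intro r
        rw [zero_add, pow_one, X_dvd_iff, map_sub, hφ.r, hψ.r, sub_self]
      · exact ustep hacl R hρ hφ hψ hz hn.ne' ih (h n hn.ne' ih)
  ext1 r
  exact eq_of_dvd fun n => h1 n r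

end Pool.Agent.Run7.h378.Solve
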