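import Pool.Agent.Run7.h378.Solve2

/-!
Solving the equation by contraction, inside `E[[s]]`.
-/

noncomputable section

namespace Pool.Agent.Run7.h378.Solve

open Finset PowerSeries

variable {E : Type} [Field E] [Algebra ℂ E]

/-- coefficientwise derivation -/
def dhat {D : E → E} (h : IsRd (RingHom.id E) D) : E⟦X⟧ →+ E⟦X⟧ where
  toFun r := PowerSeries.mk fun n => D (coeff n r)
  map_zero' := by
    ext n
    simp [h.zero]
  map_add' a b := by
    ext n
    simp [h.add]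

theorem coeff_dhat {D : E → E} (h : IsRd (RingHom.id E) D) (r : E⟦X⟧) (n : ℕ) :
    coeff n (dhat h r) = D (coeff n r) := by
  simp [dhat]

theorem dhat_dv {D : E → E} (h : IsRd (RingHom.id E) D) : IsDv (dhat h) := by
  refine ⟨fun a b => ?_, ?_⟩
  · ext n
    rw [coeff_dhat, coeff_mul, h.sum, map_add, coeff_mul, coeff_mul]
    have h2 : ∑ p ∈ antidiagonal n, coeff p.1 b * coeff p.2 (dhat h a) =
        ∑ p ∈ antidiagonal n, coeff p.2 b * coeff p.1 (dhat h a) :=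
      (Finset.Nat.sum_antidiagonal_swap (n := n)
        (f := fun p => coeff p.1 b * coeff p.2 (dhat h a))).symm
    rw [h2, ← Finset.sum_add_distrib]
    refine Finset.sum_congr rfl fun p _ => ?_
    rw [h.leib, coeff_dhat, coeff_dhat]
    simp
  · ext n
    rw [coeff_dhat, coeff_X]
    split_ifs
    · rw [h.one]; simp
    · rw [h.zero]; simp

/-- rescaled derivation -/
def dres {D : E → E} (h : IsRd (RingHom.id E) D) (w : E⟦X⟧) : E⟦X⟧ →+ E⟦X⟧ :=
  (AddMonoidHom.mulLeft w).comp (dhat h)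

theorem dres_apply {D : E → E} (h : IsRd (RingHom.id E) D) (w r : E⟦X⟧) :
    dres h w r = w * dhat h r := rfl

theorem dres_dv {D : E → E} (h : IsRd (RingHom.id E) D) (w : E⟦X⟧) : IsDv (dres h w) := by
  refine ⟨fun a b => ?_, ?_⟩
  · rw [dres_apply, dres_apply, dres_apply, (dhat_dv h).leib]; ring
  · rw [dres_apply, (dhat_dv h).X, mul_zero]

/-- family of admissible endomorphisms with prescribed value at `z` -/
theorem family (hacl : AclFacts) (R : Res E) (ρ : E ≃ₐ[ℂ] E) (z : E⟦X⟧)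
    (hz : constantCoeff z ∉ Set.range (algebraMap ℂ E)) :
    ∃ Φ : E⟦X⟧ → (E⟦X⟧ →+* E⟦X⟧), (∀ y, X ∣ y - PowerSeries.map (ρ : E →+* E) z →
      AE (ρ : E →+* E) (Φ y) ∧ Φ y z = y) ∧
      ∀ y y' n, X ∣ y - PowerSeries.map (ρ : E →+* E) z →
        X ∣ y' - PowerSeries.map (ρ : E →+* E) z → X ^ n ∣ y - y' →
        ∀ r, X ^ n ∣ Φ y r - Φ y' r := by
  classical
  have hcz := charZero E
  obtain ⟨D, hD, hDx⟩ := exists_der R
  set z' := PowerSeries.map (ρ : E →+* E) z with hz'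
  have hc' : constantCoeff z' = ρ (constantCoeff z) := by
    rw [hz', ← coeff_zero_eq_constantCoeff_apply, coeff_map]
    simp
  have h1 : constantCoeff z' ∉ Set.range (algebraMap ℂ E) := by
    rintro ⟨c, hc⟩
    apply hz
    refine ⟨c, ?_⟩
    apply ρ.injective
    rw [AlgEquiv.commutes, hc, hc']
  have h2 : constantCoeff (dhat hD z') ≠ 0 := by
    rw [← coeff_zero_eq_constantCoeff_apply, coeff_dhat, coeff_zero_eq_constantCoeff_apply]
    exact der_ne hacl R hD hDx h1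
  let d := dres hD (dhat hD z')⁻¹
  have hd : IsDv d := dres_dv hD _
  have hdz : d z' = 1 := by
    change (dhat hD z')⁻¹ * dhat hD z' = 1
    rw [mul_comm]
    exact PowerSeries.mul_inv_cancel _ h2
  have hdc : ∀ c : ℂ, d (C (algebraMap ℂ E c)) = 0 := by
    intro c
    change (dhat hD z')⁻¹ * dhat hD (C (algebraMap ℂ E c)) = 0
    have : dhat hD (C (algebraMap ℂ E c)) = 0 := by
      ext n
      rw [coeff_dhat, coeff_C]
      split_ifs
      · rw [hD.c]; simp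
      · rw [hD.zero]; simp
    rw [this, mul_zero]
  refine ⟨fun y => if h : X ∣ y - z' then (ExHom hd h).comp (PowerSeries.map (ρ : E →+* E))
    else PowerSeries.map (ρ : E →+* E), fun y hy => ?_, fun y y' n hy hy' h r => ?_⟩
  · beta_reduce
    rw [dif_pos hy]
    refine ⟨⟨?_, fun c => ?_, fun r => ?_⟩, ?_⟩
    · rw [RingHom.comp_apply, map_X, ExHom_apply, Ex_of_zero hy hd.X]
    · rw [RingHom.comp_apply, map_C, ExHom_apply]
      have : (ρ : E →+* E) (algebraMap ℂ E c) = algebraMap ℂ E c := ρ.commutes c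
      rw [this, Ex_of_zero hy (hdc c)]
    · rw [RingHom.comp_apply, ExHom_apply, Ex_const hy, ← coeff_zero_eq_constantCoeff_apply,
        coeff_map, coeff_zero_eq_constantCoeff_apply]
    · rw [RingHom.comp_apply, ExHom_apply, ← hz', Ex_shift hd hy hdz]; ring
  · beta_reduce
    rw [dif_pos hy, dif_pos hy', RingHom.comp_apply, RingHom.comp_apply, ExHom_apply, ExHom_apply]
    refine Ex_lip hy hy' n ?_ _
    have : y - z' - (y' - z') = y - y' := by ring
    rw [this]; exact h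

/-- the right hand side -/
def Psi {k : ℕ} (c A B : Fin k → E⟦X⟧) (φ : E⟦X⟧ →+* E⟦X⟧) : E⟦X⟧ :=
  ∑ j, c j * (A j * φ (B j) + B j * φ (A j))

theorem Psi_dvd {k : ℕ} (c A B : Fin k → E⟦X⟧) {φ ψ : E⟦X⟧ →+* E⟦X⟧} {n : ℕ}
    (h : ∀ r, X ^ n ∣ φ r - ψ r) : X ^ n ∣ Psi c A B φ - Psi c A B ψ := by
  rw [Psi, Psi, ← Finset.sum_sub_distrib]
  refine Finset.dvd_sum fun j _ => ?_
  have : c j * (A j * φ (B j) + B j * φ (A j)) - c j * (A j * ψ (B j) + B j * ψ (A j)) =
    c j * A j * (φ (B j) - ψ (B j)) + c j * B j * (φ (A j) - ψ (A j)) := by ring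
  rw [this]
  exact dvd_add (Dvd.dvd.mul_left (h _) _) (Dvd.dvd.mul_left (h _) _)

/-- existence -/
theorem solve_ex (hacl : AclFacts) (R : Res E) (ρ : E ≃ₐ[ℂ] E) (z : E⟦X⟧)
    (hz : constantCoeff z ∉ Set.range (algebraMap ℂ E))
    (hρz : ρ (constantCoeff z) = -constantCoeff z) {k : ℕ} (c A B : Fin k → E⟦X⟧) :
    ∃ τ : E⟦X⟧ →+* E⟦X⟧, AE (ρ : E →+* E) τ ∧ z + τ z = X ^ 2 * Psi c A B τ := by
  obtain ⟨Φ, h1, h2⟩ := family hacl R ρ z hz
  set z' := PowerSeries.map (ρ : E →+* E) z with hz'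
  have hc' : constantCoeff z' = - constantCoeff z := by
    rw [hz', ← coeff_zero_eq_constantCoeff_apply, coeff_map]
    rw [← hρz]
    simp
  let y : ℕ → E⟦X⟧ := fun n => Nat.rec (-z) (fun _ w => -z + X ^ 2 * Psi c A B (Φ w)) n
  have hy0 : y 0 = -z := rfl
  have hys : ∀ n, y (n + 1) = -z + X ^ 2 * Psi c A B (Φ (y n)) := fun n => rfl
  have hX : ∀ w q : E⟦X⟧, w = -z + X ^ 2 * q → X ∣ w - z' := by
    intro w q hw
    rw [X_dvd_iff, hw]
    simp [hc']
  have hyz : ∀ n, X ∣ y n - z' := by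
    intro n
    rcases n with _ | n
    · exact hX _ 0 (by rw [hy0]; ring)
    · exact hX _ _ (hys n)
  have hstep : ∀ n, X ^ (n + 1) ∣ y (n + 1) - y n := by
    intro n
    induction n with
    | zero =>
      rw [hys, hy0]
      refine ⟨X * Psi c A B (Φ (-z)), ?_⟩
      ring
    | succ n ih =>
      have h3 := Psi_dvd c A B (h2 _ _ _ (hyz (n + 1)) (hyz n) ih)
      obtain ⟨q, hq⟩ := h3
      rw [hys (n + 1), hys n]
      refine ⟨X * q, ?_⟩
      have : -z + X ^ 2 * Psi c A B (Φ (y (n + 1))) - (-z + X ^ 2 * Psi c A B (Φ (y n))) =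
        X ^ 2 * (Psi c A B (Φ (y (n + 1))) - Psi c A B (Φ (y n))) := by ring
      rw [← hys n, this, hq]
      ring
  have hstep' : ∀ n m, n ≤ m → X ^ (n + 1) ∣ y m - y n := by
    intro n m hnm
    induction m, hnm using Nat.le_induction with
    | base => simp
    | succ m hm ih =>
      have : y (m + 1) - y n = (y (m + 1) - y m) + (y m - y n) := by ring
      rw [this]
      exact dvd_add ((pow_dvd_pow _ (by omega)).trans (hstep m)) ih
  let w : E⟦X⟧ := PowerSeries.mk fun j => coeff j (y j)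
  have hw : ∀ n, X ^ (n + 1) ∣ w - y n := by
    intro n
    rw [X_pow_dvd_iff]
    intro m hm
    rw [map_sub, coeff_mk, sub_eq_zero]
    have := X_pow_dvd_iff.mp (hstep' m n (by omega)) m (Nat.lt_succ_self m)
    rw [map_sub, sub_eq_zero] at this
    exact this.symm
  have hwz : X ∣ w - z' := by
    have : w - z' = (w - y 0) + (y 0 - z') := by ring
    rw [this]
    have h3 := hw 0
    rw [zero_add, pow_one] at h3
    exact dvd_add h3 (hyz 0)
  refine ⟨Φ w, (h1 w hwz).1, ?_⟩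
  rw [(h1 w hwz).2]
  refine eq_of_dvd fun n => ?_
  have h3 := Psi_dvd c A B (h2 _ _ _ hwz (hyz n) ((pow_dvd_pow _ (Nat.le_succ n)).trans (hw n)))
  have h4 := hw (n + 1)
  have : z + w - X ^ 2 * Psi c A B (Φ w) =
    (w - y (n + 1)) - X ^ 2 * (Psi c A B (Φ w) - Psi c A B (Φ (y n))) := by
    rw [hys]; ring
  rw [this]
  exact dvd_sub ((pow_dvd_pow _ (by omega)).trans h4) (Dvd.dvd.mul_left h3 _)

/-- uniqueness -/
theorem solve_uniq (hacl : AclFacts) (R : Res E) (ρ : E ≃ₐ[ℂ] E) (z : E⟦X⟧)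
    (hz : constantCoeff z ∉ Set.range (algebraMap ℂ E)) {k : ℕ} (c A B : Fin k → E⟦X⟧)
    {τ τ' : E⟦X⟧ →+* E⟦X⟧} (h : AE (ρ : E →+* E) τ) (h' : AE (ρ : E →+* E) τ')
    (e : z + τ z = X ^ 2 * Psi c A B τ) (e' : z + τ' z = X ^ 2 * Psi c A B τ') : τ = τ' := by
  refine uniq hacl R (fun c => ρ.commutes c) h h' hz fun n hn hc => ?_
  have h1 := Psi_dvd c A B hc
  have : τ z - τ' z = X ^ 2 * (Psi c A B τ - Psi c A B τ') := by
    rw [mul_sub, ← e, ← e']; ring
  rw [this]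
  obtain ⟨q, hq⟩ := h1
  rw [hq]
  exact ⟨X * q, by ring⟩

/-- the solution is a square root of `g` -/
theorem solve_sq (hacl : AclFacts) (R : Res E) (ρ ρ' : E ≃ₐ[ℂ] E)
    (hρ : ∀ e, ρ (ρ e) = ρ' e) (z : E⟦X⟧)
    (hz : constantCoeff z ∉ Set.range (algebraMap ℂ E)) {k : ℕ} (c A B : Fin k → E⟦X⟧)
    {τ g : E⟦X⟧ →+* E⟦X⟧} (h : AE (ρ : E →+* E) τ) (hg : AE (ρ' : E →+* E) g)
    (hc : ∀ j, τ (c j) = c j) (hA : ∀ j, g (A j) = A j) (hB : ∀ j, g (B j) = B j)
    (hgz : g z = z)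
    (e : z + τ z = X ^ 2 * Psi c A B τ) : τ.comp τ = g := by
  have h2 : AE (ρ' : E →+* E) (τ.comp τ) := by
    refine ⟨?_, fun c => ?_, fun r => ?_⟩
    · rw [RingHom.comp_apply, h.X, h.X]
    · rw [RingHom.comp_apply, h.c, h.c]
    · rw [RingHom.comp_apply, h.r, h.r]
      exact hρ _
  refine uniq hacl R (fun c => ρ'.commutes c) h2 hg hz fun n hn hcc => ?_
  have e2 := congrArg τ e
  rw [map_add, map_mul, map_pow, h.X, Psi, map_sum] at e2
  have e3 : τ.comp τ z - g z = X ^ 2 * ∑ j, c j * (τ (A j) * (τ (τ (B j)) - g (B j)) +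
      τ (B j) * (τ (τ (A j)) - g (A j))) := by
    have e4 : (τ z + τ (τ z)) - (z + τ z) = X ^ 2 * ∑ j, c j * (τ (A j) * (τ (τ (B j)) - g (B j)) +
      τ (B j) * (τ (τ (A j)) - g (A j))) := by
      rw [e2, e, Psi, ← mul_sub, ← Finset.sum_sub_distrib]
      congr 1
      refine Finset.sum_congr rfl fun j _ => ?_
      rw [map_mul, map_add, map_mul, map_mul, hc, hA, hB]
      ring
    rw [← e4, hgz, RingHom.comp_apply]; ring
  rw [e3]
  have h3 : X ^ n ∣ ∑ j, c j * (τ (A j) * (τ (τ (B j)) - g (B j)) +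
      τ (B j) * (τ (τ (A j)) - g (A j))) := by
    refine Finset.dvd_sum fun j _ => ?_
    exact Dvd.dvd.mul_left (dvd_add (Dvd.dvd.mul_left (hcc _) _) (Dvd.dvd.mul_left (hcc _) _)) _
  obtain ⟨q, hq⟩ := h3
  rw [hq]
  exact ⟨X * q, by ring⟩

end Pool.Agent.Run7.h378.Solve
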