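import Pool.Agent.Run7.h378.Solve3

/-!
Transfer from `E[[s]]` to `E((s))`; the piece `S_solve`.
-/

noncomputable section

namespace Pool.Agent.Run7.h378.Solve

open Finset PowerSeries

variable {E : Type} [Field E] [Algebra ℂ E]

/-- coercion to Laurent series -/
def co : E⟦X⟧ →+* LaurentSeries E := HahnSeries.ofPowerSeries ℤ E

omit [Algebra ℂ E] in
theorem co_inj : Function.Injective (co (E := E)) := HahnSeries.ofPowerSeries_injective

omit [Algebra ℂ E] in
theorem co_coeff (r : E⟦X⟧) (n : ℕ) : (co r).coeff (n : ℤ) = coeff n r :=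
  HahnSeries.ofPowerSeries_apply_coeff r n

omit [Algebra ℂ E] in
theorem co_coeff_zero (r : E⟦X⟧) : (co r).coeff 0 = constantCoeff r := by
  have := co_coeff r 0
  rw [Nat.cast_zero] at this
  rw [this, coeff_zero_eq_constantCoeff_apply]

omit [Algebra ℂ E] in
theorem co_coeff_neg (r : E⟦X⟧) (n : ℤ) (hn : n < 0) : (co r).coeff n = 0 := by
  rw [co, HahnSeries.ofPowerSeries_apply, HahnSeries.embDomain_of_notMem_range]
  rintro ⟨m, hm⟩
  simp only [Nat.castOrderEmbedding_apply] at hm
  omega

omit [Algebra ℂ E] in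
theorem vH_le_iff (h : LaurentSeries E) (n : ℤ) :
    (n : WithTop ℤ) ≤ vH h ↔ ∀ m, m < n → h.coeff m = 0 := by
  rw [vH, HahnSeries.addVal_apply, HahnSeries.le_orderTop_iff_forall]
  simp only [WithTop.coe_lt_coe]

omit [Algebra ℂ E] in
theorem vH_co (r : E⟦X⟧) : 0 ≤ vH (co r) := by
  have := (vH_le_iff (co r) 0).mpr fun m hm => co_coeff_neg r m hm
  simpa using this

omit [Algebra ℂ E] in
theorem exists_co {h : LaurentSeries E} (hh : 0 ≤ vH h) : ∃ r, co r = h := by
  have h1 : ∀ m, m < 0 → h.coeff m = 0 := (vH_le_iff h 0).mp (by simpa using hh)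
  refine ⟨PowerSeries.mk fun n => h.coeff (n : ℤ), ?_⟩
  ext n
  rcases lt_or_ge n 0 with hn | hn
  · rw [co_coeff_neg _ _ hn, h1 n hn]
  · obtain ⟨m, rfl⟩ := Int.eq_ofNat_of_zero_le hn
    rw [co_coeff, coeff_mk]

omit [Algebra ℂ E] in
theorem co_X : co (X : E⟦X⟧) = sH := HahnSeries.ofPowerSeries_X

omit [Algebra ℂ E] in
theorem co_C (e : E) : co (C e) = eH e := HahnSeries.ofPowerSeries_C e

omit [Algebra ℂ E] in
theorem sH_ne : (sH : LaurentSeries E) ≠ 0 := by
  intro h
  have := congrArg (fun q => HahnSeries.coeff q (1 : ℤ)) h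
  simp [sH] at this

omit [Algebra ℂ E] in
theorem sH_zpow (n : ℤ) : (sH : LaurentSeries E) ^ n = HahnSeries.single n 1 := by
  have hpow : ∀ m : ℕ, (sH : LaurentSeries E) ^ m = HahnSeries.single (m : ℤ) 1 := by
    intro m
    rw [sH, HahnSeries.single_pow]
    simp
  rcases Int.eq_nat_or_neg n with ⟨m, rfl | rfl⟩
  · rw [zpow_natCast, hpow]
  · rw [zpow_neg, zpow_natCast, hpow]
    symm
    apply eq_inv_of_mul_eq_one_left
    rw [HahnSeries.single_mul_single]
    simp

omit [Algebra ℂ E] in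
theorem coeff_sH_mul (n m : ℤ) (h : LaurentSeries E) :
    (sH ^ n * h).coeff (n + m) = h.coeff m := by
  rw [sH_zpow, add_comm n m, HahnSeries.coeff_single_mul_add, one_mul]

omit [Algebra ℂ E] in
/-- representation `h = s^n * r` -/
theorem exists_rep (h : LaurentSeries E) (n : ℤ) (hn : (n : WithTop ℤ) ≤ vH h) :
    ∃ r : E⟦X⟧, h = sH ^ n * co r ∧ constantCoeff r = h.coeff n := by
  have h1 : 0 ≤ vH (sH ^ (-n) * h) := by
    have := (vH_le_iff (sH ^ (-n) * h) 0).mpr fun m hm => by
      have := coeff_sH_mul (-n) (m + n) h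
      have e : -n + (m + n) = m := by ring
      rw [e] at this
      rw [this]
      exact (vH_le_iff h n).mp hn _ (by omega)
    simpa using this
  obtain ⟨r, hr⟩ := exists_co h1
  have h2 : h = sH ^ n * co r := by
    rw [hr, ← mul_assoc, zpow_neg, mul_inv_cancel₀ (zpow_ne_zero _ sH_ne), one_mul]
  refine ⟨r, h2, ?_⟩
  have := coeff_sH_mul n 0 (co r)
  rw [add_zero, ← h2, co_coeff_zero] at this
  exact this.symm

omit [Algebra ℂ E] in
theorem exists_rep' {h : LaurentSeries E} (h0 : h ≠ 0) :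
    ∃ (n : ℤ) (r : E⟦X⟧), h = sH ^ n * co r ∧ constantCoeff r ≠ 0 ∧ vH h = n := by
  have h1 : vH h = (h.order : WithTop ℤ) := by
    rw [vH, HahnSeries.addVal_apply_of_ne h0]
  obtain ⟨r, h2, h3⟩ := exists_rep h h.order (le_of_eq h1.symm)
  refine ⟨h.order, r, h2, ?_, h1⟩
  rw [h3]
  exact mt (HahnSeries.coeff_order_eq_zero).mp h0

omit [Algebra ℂ E] in
theorem vH_rep (n : ℤ) (r : E⟦X⟧) (hr : constantCoeff r ≠ 0) :
    vH (sH ^ n * co r) = n := by
  apply le_antisymm
  · by_contra hlt
    rw [not_le] at hlt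
    have h1 : ((n + 1 : ℤ) : WithTop ℤ) ≤ vH (sH ^ n * co r) := by
      by_contra h2
      rw [not_le] at h2
      have h3 : vH (sH ^ n * co r) ≠ ⊤ := ne_top_of_lt h2
      obtain ⟨k, hk⟩ := WithTop.ne_top_iff_exists.mp h3
      rw [← hk, WithTop.coe_lt_coe] at hlt h2
      omega
    have h2 := (vH_le_iff _ _).mp h1 n (by omega)
    have h3 := coeff_sH_mul n 0 (co r)
    rw [add_zero, h2, co_coeff_zero] at h3
    exact hr h3.symm
  · rw [vH_le_iff]
    intro m hm
    have h3 := coeff_sH_mul n (m - n) (co r)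
    have e : n + (m - n) = m := by ring
    rw [e] at h3
    rw [h3, co_coeff_neg _ _ (by omega)]

/-- restriction to power series -/
def restr (g : LaurentSeries E ≃+* LaurentSeries E) (hg : ∀ h, 0 ≤ vH h → 0 ≤ vH (g h)) :
    E⟦X⟧ →+* E⟦X⟧ where
  toFun r := Classical.choose (exists_co (hg _ (vH_co r)))
  map_one' := co_inj (by
    rw [Classical.choose_spec (exists_co (hg _ (vH_co 1)))]; simp)
  map_zero' := co_inj (by
    rw [Classical.choose_spec (exists_co (hg _ (vH_co 0)))]; simp)
  map_add' a b := co_inj (by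
    rw [Classical.choose_spec (exists_co (hg _ (vH_co (a + b)))), map_add co, map_add co,
      Classical.choose_spec (exists_co (hg _ (vH_co a))),
      Classical.choose_spec (exists_co (hg _ (vH_co b))), map_add])
  map_mul' a b := co_inj (by
    rw [Classical.choose_spec (exists_co (hg _ (vH_co (a * b)))), map_mul co, map_mul co,
      Classical.choose_spec (exists_co (hg _ (vH_co a))),
      Classical.choose_spec (exists_co (hg _ (vH_co b))), map_mul])

omit [Algebra ℂ E] in
theorem co_restr (g : LaurentSeries E ≃+* LaurentSeries E) (hg : ∀ h, 0 ≤ vH h → 0 ≤ vH (g h))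
    (r : E⟦X⟧) : co (restr g hg r) = g (co r) :=
  Classical.choose_spec (exists_co (hg _ (vH_co r)))

/-- admissible automorphisms restrict -/
theorem restr_AE {ρ : E ≃ₐ[ℂ] E} {g : LaurentSeries E ≃+* LaurentSeries E} (h : Adm ρ g)
    (hg : ∀ h, 0 ≤ vH h → 0 ≤ vH (g h)) : AE (ρ : E →+* E) (restr g hg) := by
  refine ⟨co_inj ?_, fun c => co_inj ?_, fun r => ?_⟩
  · rw [co_restr, co_X, h.map_s]
  · rw [co_restr, co_C]
    exact h.map_c c
  · rw [← co_coeff_zero, co_restr, h.res (co r) 0 (by simpa using vH_co r), co_coeff_zero]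
    simp

theorem AE.fix {ρ : E →+* E} {φ : E⟦X⟧ →+* E⟦X⟧} (h : AE ρ φ) (r : E⟦X⟧)
    (hr : ∀ n, coeff n r ∈ Set.range (algebraMap ℂ E)) : φ r = r := by
  have key : ∀ n, ∀ r : E⟦X⟧, (∀ n, coeff n r ∈ Set.range (algebraMap ℂ E)) →
      PowerSeries.X ^ n ∣ φ r - r := by
    intro n
    induction n with
    | zero => intro r _; simp
    | succ n ih =>
      intro r hr
      have h1 : PowerSeries.X ∣ r - C (constantCoeff r) := by
        rw [X_dvd_iff]; simp
      obtain ⟨q, hq⟩ := h1
      have h2 : r = C (constantCoeff r) + PowerSeries.X * q := by rw [← hq]; ring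
      obtain ⟨c, hc⟩ := hr 0
      rw [coeff_zero_eq_constantCoeff_apply] at hc
      have hq' : ∀ n, coeff n q ∈ Set.range (algebraMap ℂ E) := by
        intro n
        have h3 := hr (n + 1)
        rw [h2, map_add, coeff_succ_X_mul, coeff_C, if_neg (Nat.succ_ne_zero n), zero_add] at h3
        exact h3
      obtain ⟨w, hw⟩ := ih q hq'
      have h3 : φ r - r = PowerSeries.X * (φ q - q) := by
        conv_lhs => rw [h2]
        rw [map_add, map_mul, h.X, ← hc, h.c]; ring
      rw [h3, hw]
      exact ⟨w, by ring⟩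
  exact eq_of_dvd fun n => key n r hr

/-- extension of a bijective admissible endomorphism -/
theorem extend {ρ : E ≃ₐ[ℂ] E} {φ : E⟦X⟧ →+* E⟦X⟧} (h : AE (ρ : E →+* E) φ)
    (hb : Function.Bijective φ) : ∃ τ : LaurentSeries E ≃+* LaurentSeries E,
      (∀ r, τ (co r) = co (φ r)) ∧ Adm ρ τ := by
  let f : E⟦X⟧ ≃+* E⟦X⟧ := RingEquiv.ofBijective φ hb
  let τ : LaurentSeries E ≃+* LaurentSeries E := IsFractionRing.ringEquivOfRingEquiv f
  have h1 : ∀ r, τ (co r) = co (φ r) := fun r =>
    IsFractionRing.ringEquivOfRingEquiv_algebraMap (K := LaurentSeries E)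
      (L := LaurentSeries E) f r
  have hs : τ sH = sH := by rw [← co_X, h1, h.X]
  have hz : ∀ n : ℤ, τ (sH ^ n) = sH ^ n := fun n => by rw [map_zpow₀, hs]
  refine ⟨τ, h1, hs, fun c => ?_, fun a => ?_, fun a n hn => ?_⟩
  · change τ (eH (algebraMap ℂ E c)) = eH (algebraMap ℂ E c)
    rw [← co_C, h1, h.c]
  · by_cases ha : a = 0
    · rw [ha, map_zero]
    · obtain ⟨n, r, e, hr, hv⟩ := exists_rep' ha
      rw [hv, e, map_mul, hz, h1]
      apply vH_rep
      rw [h.r]
      simpa using hr
  · obtain ⟨r, e, hr⟩ := exists_rep a n hn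
    rw [← hr, e, map_mul, hz, h1]
    have := coeff_sH_mul n 0 (co (φ r))
    rw [add_zero] at this
    rw [this, co_coeff_zero, h.r]
    rfl

omit [Algebra ℂ E] in
theorem ext_co {f g : LaurentSeries E →+* LaurentSeries E} (h : ∀ r, f (co r) = g (co r)) :
    f = g := by
  refine IsLocalization.ringHom_ext (nonZeroDivisors E⟦X⟧) ?_
  ext r : 1
  exact h r

theorem eps_pos {R : Res E} {e : LaurentSeries E ≃+* LaurentSeries E} (he : IsEps R e)
    (h : LaurentSeries E) (hh : 0 ≤ vH h) : 0 ≤ vH (e h) := by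
  have h1 := (vH_le_iff h 0).mp (by simpa using hh)
  have := (vH_le_iff (e h) 0).mpr fun m hm => by rw [he, h1 m hm, map_zero, mul_zero]
  simpa using this

theorem eps_invol {R : Res E} {e : LaurentSeries E ≃+* LaurentSeries E} (he : IsEps R e)
    (h : LaurentSeries E) : e (e h) = h := by
  ext n
  rw [he, he, map_mul, R.ε_sq, map_zpow₀, map_neg, map_one, ← mul_assoc, ← mul_zpow]
  simp

theorem eps_sH {R : Res E} {e : LaurentSeries E ≃+* LaurentSeries E} (he : IsEps R e) :
    e sH = -sH := by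
  ext n
  rw [he, HahnSeries.coeff_neg, sH, HahnSeries.coeff_single]
  split_ifs with h
  · rw [h]; simp
  · simp

theorem eps_cH {R : Res E} {e : LaurentSeries E ≃+* LaurentSeries E} (he : IsEps R e) (c : ℂ) :
    e (cH c) = cH c := by
  ext n
  rw [he]
  change _ * R.ε ((HahnSeries.C (algebraMap ℂ E c)).coeff n) =
    (HahnSeries.C (algebraMap ℂ E c)).coeff n
  rw [HahnSeries.C_apply, HahnSeries.coeff_single]
  split_ifs with h
  · rw [h, AlgEquiv.commutes]; simp
  · simp

/-- PIECE F5. -/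
theorem solve : S_solve := by
  intro hacl E _ _ R eps heps l g hg hcomm z hz hgz hez hz0 hzσ k c A B hc hA hB
  have hgp : ∀ h, 0 ≤ vH h → 0 ≤ vH (g h) := fun h hh => by rw [hg.map_v]; exact hh
  have hgp' : ∀ h, 0 ≤ vH h → 0 ≤ vH (g.symm h) := fun h hh => by
    rw [← hg.map_v, RingEquiv.apply_symm_apply]; exact hh
  have hep : ∀ h, 0 ≤ vH h → 0 ≤ vH (eps h) := eps_pos heps
  -- power series versions
  obtain ⟨zr, rfl⟩ := exists_co hz
  choose cr hcr using fun j => exists_co (hc j).1
  choose Ar hAr using fun j => exists_co (hA j).1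
  choose Br hBr using fun j => exists_co (hB j).1
  obtain rfl : (fun j => co (cr j)) = c := funext hcr
  obtain rfl : (fun j => co (Ar j)) = A := funext hAr
  obtain rfl : (fun j => co (Br j)) = B := funext hBr
  rw [co_coeff_zero] at hz0 hzσ
  let G := restr g hgp
  let ep := restr eps hep
  have hG : AE (R.σ l : E →+* E) G := restr_AE hg hgp
  obtain ⟨τ, hτ, e⟩ := solve_ex hacl R (R.σ (l + 1)) zr hz0 hzσ cr Ar Br
  have hGz : G zr = zr := co_inj (by rw [co_restr, hgz])
  have hGA : ∀ j, G (Ar j) = Ar j := fun j => co_inj (by rw [co_restr]; exact (hA j).2.1)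
  have hGB : ∀ j, G (Br j) = Br j := fun j => co_inj (by rw [co_restr]; exact (hB j).2.1)
  have hez' : ep zr = zr := co_inj (by rw [co_restr, hez])
  have hec : ∀ j, ep (cr j) = cr j := fun j => co_inj (by rw [co_restr]; exact (hc j).2.2)
  have heA : ∀ j, ep (Ar j) = Ar j := fun j => co_inj (by rw [co_restr]; exact (hA j).2.2)
  have heB : ∀ j, ep (Br j) = Br j := fun j => co_inj (by rw [co_restr]; exact (hB j).2.2)
  have hee : ∀ r, ep (ep r) = r := fun r => co_inj (by rw [co_restr, co_restr, eps_invol heps])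
  have hτc : ∀ j, τ (cr j) = cr j := by
    intro j
    apply hτ.fix
    intro n
    have := (hc j).2.1 n
    rwa [co_coeff] at this
  have hsq : τ.comp τ = G :=
    solve_sq hacl R (R.σ (l + 1)) (R.σ l) (R.σ_sq l) zr hz0 cr Ar Br hτ hG hτc hGA hGB hGz e
  have hGbij : Function.Bijective G := by
    refine ⟨fun a b hab => ?_, fun b => ⟨restr g.symm hgp' b, co_inj ?_⟩⟩
    · have := congrArg co hab
      rw [co_restr, co_restr] at this
      exact co_inj (g.injective this)
    · rw [co_restr, co_restr, RingEquiv.apply_symm_apply]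
  have hτbij : Function.Bijective τ := by
    have h1 : ∀ r, τ (τ r) = G r := fun r => by rw [← hsq]; rfl
    refine ⟨fun a b hab => hGbij.1 ?_, fun b => ?_⟩
    · rw [← h1, ← h1, hab]
    · obtain ⟨a, ha⟩ := hGbij.2 b
      exact ⟨τ a, by rw [h1, ha]⟩
  -- conjugation by eps
  have hepX : ep X = -X := co_inj (by rw [co_restr, co_X, eps_sH heps, map_neg, co_X])
  have hepC : ∀ c : ℂ, ep (C (algebraMap ℂ E c)) = C (algebraMap ℂ E c) := fun c =>
    co_inj (by rw [co_restr, co_C]; exact eps_cH heps c)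
  have hep0 : ∀ r, constantCoeff (ep r) = R.ε (constantCoeff r) := by
    intro r
    rw [← co_coeff_zero, co_restr, heps, co_coeff_zero]; simp
  have hτ' : AE (R.σ (l + 1) : E →+* E) (ep.comp (τ.comp ep)) := by
    refine ⟨?_, fun c => ?_, fun r => ?_⟩
    · rw [RingHom.comp_apply, RingHom.comp_apply, hepX, map_neg, hτ.X, map_neg, hepX, neg_neg]
    · rw [RingHom.comp_apply, RingHom.comp_apply, hepC, hτ.c, hepC]
    · rw [RingHom.comp_apply, RingHom.comp_apply, hep0, hτ.r, hep0]
      change R.ε (R.σ (l + 1) (R.ε _)) = R.σ (l + 1) _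
      rw [R.ε_σ, R.ε_sq]
  have e' : zr + (ep.comp (τ.comp ep)) zr = X ^ 2 * Psi cr Ar Br (ep.comp (τ.comp ep)) := by
    have e2 := congrArg ep e
    rw [map_add, hez', map_mul, map_pow, hepX, neg_sq, Psi, map_sum] at e2
    rw [RingHom.comp_apply, RingHom.comp_apply, hez', e2, Psi]
    congr 1
    refine Finset.sum_congr rfl fun j _ => ?_
    rw [map_mul, map_add, map_mul, map_mul, hec, heA, heB]
    simp only [RingHom.comp_apply]
    rw [heA, heB]
  have heq : ep.comp (τ.comp ep) = τ := solve_uniq hacl R (R.σ (l + 1)) zr hz0 cr Ar Br hτ' hτ e' e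
  have hcomm' : ∀ r, ep (τ r) = τ (ep r) := by
    intro r
    have := RingHom.congr_fun heq (ep r)
    rw [RingHom.comp_apply, RingHom.comp_apply, hee] at this
    exact this
  obtain ⟨T, hT, hTadm⟩ := extend hτ hτbij
  refine ⟨T, hTadm, fun h => ?_, fun h => ?_, ?_⟩
  · have : (T : LaurentSeries E →+* LaurentSeries E).comp
        (T : LaurentSeries E →+* LaurentSeries E) = (g : LaurentSeries E →+* LaurentSeries E) := by
      apply ext_co
      intro r
      change T (T (co r)) = g (co r)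
      rw [hT, hT, ← co_restr g hgp]
      congr 1
      exact RingHom.congr_fun hsq r
    exact RingHom.congr_fun this h
  · have : (eps : LaurentSeries E →+* LaurentSeries E).comp
        (T : LaurentSeries E →+* LaurentSeries E) =
        (T : LaurentSeries E →+* LaurentSeries E).comp
        (eps : LaurentSeries E →+* LaurentSeries E) := by
      apply ext_co
      intro r
      change eps (T (co r)) = T (eps (co r))
      rw [hT, ← co_restr eps hep, ← co_restr eps hep, hT]
      congr 1
      exact hcomm' r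
    exact RingHom.congr_fun this h
  · have e2 := congrArg co e
    rw [Psi, map_add, map_mul, map_pow, co_X, map_sum] at e2
    rw [hT, e2]
    congr 1
    refine Finset.sum_congr rfl fun j _ => ?_
    rw [map_mul, map_add, map_mul, map_mul, hT, hT]

end Pool.Agent.Run7.h378.Solve
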